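import Pool.Agent.PTH.Defs
import Pool.Agent.PAN.Defs

/-! # Path theorem: the Lobachevsky function -/

open scoped BigOperators
open MeasureTheory

namespace PTH

theorem intInt (a b : ℝ) :
    IntervalIntegrable (fun t => Real.log |2 * Real.sin t|) volume a b := by
  have h : MeromorphicOn (fun t : ℝ => 2 * Real.sin t) (Set.uIcc a b) := by
    intro x _
    exact ((analyticAt_const.mul Real.analyticAt_sin)).meromorphicAt
  exact h.intervalIntegrable_log_norm

theorem cont_Lob : Continuous Pool.Agent.PAN.Lob := by
  unfold Pool.Agent.PAN.Lob
  exact (intervalIntegral.continuous_primitive intInt 0).neg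

theorem hasDerivAt_Lob {x : ℝ} (h0 : 0 < x) (h1 : x < Real.pi) :
    HasDerivAt Pool.Agent.PAN.Lob (-Real.log (2 * Real.sin x)) x := by
  have hs : 0 < Real.sin x := Real.sin_pos_of_pos_of_lt_pi h0 h1
  have hc : ContinuousAt (fun t => Real.log |2 * Real.sin t|) x := by
    refine ContinuousAt.log ?_ (by positivity)
    fun_prop
  have hm : StronglyMeasurableAtFilter (fun t => Real.log |2 * Real.sin t|) (nhds x) volume := by
    refine StronglyMeasurable.stronglyMeasurableAtFilter ?_
    exact (Real.measurable_log.comp ((measurable_const.mul
      Real.measurable_sin).abs)).stronglyMeasurable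
  have h2 := (intervalIntegral.integral_hasDerivAt_right (intInt 0 x) hm hc).neg
  rw [abs_of_pos (by positivity)] at h2
  exact h2

end PTH
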