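import Pool.Agent.PTH.Fib

/-! # Path theorem: the state integral under a 2-3 move -/

open scoped BigOperators
open Pool.Agent.PAN

namespace PTH

variable {R : Type} [Fintype R]

theorem par_move {T : Tri (R ⊕ Fin 2)} {T' : Tri (R ⊕ Fin 3)} (h : IsMove T T') {d : ℕ}
    {L : (Fin d → ℝ) →ₗ[ℝ] (R ⊕ Fin 2 → Fin 3 → ℝ)} (hL : IsPar L T.TA) :
    IsPar (consL (ker₃ R) (sec₃ R ∘ₗ L)) T'.TA := by
  have hz : ∀ y t, ∑ i, L y t i = 0 := fun y t => T.sum_TA (hL.mem y) t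
  constructor
  · rw [← LinearMap.ker_eq_bot, LinearMap.ker_eq_bot']
    intro x hx
    have hx' : x 0 • ker₃ R + sec₃ R (L (Fin.tail x)) = 0 := hx
    have h1 : L (Fin.tail x) = 0 := by
      have := congrArg (pushL R) hx'
      rw [map_add, map_smul, pushL_apply, pushL_apply, push_ker₃, push_sec₃ (hz _), smul_zero,
        zero_add, map_zero] at this
      exact this
    rw [h1, map_zero, add_zero] at hx'
    have h2 : x 0 = 0 := by
      have := congrFun (congrFun hx' (Sum.inr 0)) 1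
      simpa [ker₃] using this
    have h3 : Fin.tail x = 0 := hL.inj (by rw [h1, map_zero])
    funext j
    refine Fin.cases h2 (fun k => ?_) j
    exact congrFun h3 k
  · apply le_antisymm
    · rintro _ ⟨x, rfl⟩
      show x 0 • ker₃ R + sec₃ R (L (Fin.tail x)) ∈ T'.TA
      rw [add_comm]
      exact sec_mem_TA h (hL.mem _) _
    · intro x hx
      obtain ⟨s, hs⟩ := exists_of_mem_TA h hx
      have hp : push x ∈ LinearMap.range L := by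
        rw [hL.range]; exact ((mem_TA_move h x).1 hx).2.2
      obtain ⟨y, hy⟩ := hp
      refine ⟨Fin.cons s y, ?_⟩
      rw [consL_cons]
      show s • ker₃ R + sec₃ R (L y) = x
      rw [hy, add_comm]
      exact hs.symm

theorem zmove (hg : St_gN) (hZ2 : St_Z2) {κ : ℕ → ℝ} (hκ : ∀ N, 6 ≤ N → StarN N (κ N))
    {T : Tri (R ⊕ Fin 2)} {T' : Tri (R ⊕ Fin 3)} (h : IsMove T T')
    {α : R ⊕ Fin 3 → Fin 3 → ℝ} (hα : α ∈ T'.Ang) {d : ℕ}
    {L : (Fin d → ℝ) →ₗ[ℝ] (R ⊕ Fin 2 → Fin 3 → ℝ)} (hL : IsPar L T.TA) :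
    ∃ N₀ : ℕ, 1 ≤ N₀ ∧ ∀ N : ℕ, N₀ ≤ N → ∀ (ℓ' : (R ⊕ Fin 3 → Fin 3 → ℝ) →ₗ[ℝ] ℝ)
      (ℓ : (R ⊕ Fin 2 → Fin 3 → ℝ) →ₗ[ℝ] ℝ), (∀ x ∈ T'.TA, ℓ' x = ℓ (push x)) →
      ℓ' α = ℓ (push α) →
      ZZ N (consL (ker₃ R) (sec₃ R ∘ₗ L)) ℓ' α = κ N * ZZ N L ℓ (push α) := by
  have hL' := par_move h hL
  have hz' : ∀ y t, ∑ i, consL (ker₃ R) (sec₃ R ∘ₗ L) y t i = 0 :=
    fun y t => T'.sum_TA (hL'.mem y) t
  have hz : ∀ y t, ∑ i, L y t i = 0 := fun y t => T.sum_TA (hL.mem y) t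
  have hang : IsAng α := fun t => ⟨fun i => hα.2 t i, hα.1.1 t⟩
  obtain ⟨δ, hδ, hd⟩ := exists_delta (fun t i => hα.2 t i)
  obtain ⟨C₂, N₂, hC₂, hN₂, hint⟩ := integrable_ZI hg hZ2 hL'.inj hz' hδ
  obtain ⟨-, hax, -⟩ := (sys_move h Real.pi α).1 hα.1
  refine ⟨max N₂ 6, hN₂.trans (le_max_left _ _), fun N hN ℓ' ℓ hℓ1 hℓ2 => ?_⟩
  have hNa := (le_max_left N₂ 6).trans hN
  have hNb := (le_max_right N₂ 6).trans hN
  unfold ZZ
  rw [integral_cons (hint N hNa ℓ' α hd hα.1.1).1, ← MeasureTheory.integral_const_mul]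
  refine MeasureTheory.integral_congr_ae (Filter.Eventually.of_forall fun y => ?_)
  have hTA : ∀ s : ℝ, s • ker₃ R + sec₃ R (L y) ∈ T'.TA := fun s => by
    rw [add_comm]; exact sec_mem_TA h (hL.mem y) s
  have hpush : ∀ s : ℝ, push (s • ker₃ R + sec₃ R (L y)) = L y := fun s => by
    rw [← pushL_apply, map_add, map_smul, pushL_apply, pushL_apply, push_ker₃, push_sec₃ (hz y),
      smul_zero, zero_add]
  have e1 : ∀ s : ℝ, ZI N ℓ' α (consL (ker₃ R) (sec₃ R ∘ₗ L) (Fin.cons s y)) =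
      GG N (cx α (s • ker₃ R + sec₃ R (L y))) * Complex.exp (((N / Real.pi : ℝ) : ℂ) *
        ((ℓ (push α) : ℂ) + (ℓ (L y) : ℂ) * Complex.I)) := by
    intro s
    rw [consL_cons]
    show ZI N ℓ' α (s • ker₃ R + sec₃ R (L y)) = _
    unfold ZI
    rw [hℓ1 _ (hTA s), hpush s, hℓ2]
  show ∫ s : ℝ, ZI N ℓ' α (consL (ker₃ R) (sec₃ R ∘ₗ L) (Fin.cons s y)) =
    κ N * ZI N ℓ (push α) (L y)
  rw [MeasureTheory.integral_congr_ae (Filter.Eventually.of_forall e1),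
    MeasureTheory.integral_mul_const, fib hg (hN₂.trans hNa) (hκ N hNb) hang hax
      (sec₃_sum (hz y)) (sec₃_axis (hz y)), push_sec₃ (hz y), mul_assoc]
  rfl

end PTH
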