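import Pool.Agent.PTH.ZDef

/-! # Path theorem: the state integral under renaming -/

open scoped BigOperators
open Pool.Agent.PAN

namespace PTH

variable {ι ι₁ : Type} [Fintype ι] [Fintype ι₁]

theorem GG_rel (e : ι ≃ ι₁) (p : ι → Equiv.Perm (Fin 4)) (N : ℕ) (α x : ι → Fin 3 → ℝ) :
    GG N (cx (relE e p α) (relE e p x)) = GG N (cx α x) := by
  unfold GG WN
  rw [← Equiv.prod_comp e]
  refine Finset.prod_congr rfl fun t _ => ?_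
  rw [← Equiv.prod_comp (pqE (p t))]
  refine Finset.prod_congr rfl fun i _ => ?_
  unfold cx
  rw [relE_apply, relE_apply]

theorem par_rel {T : Tri ι} {T₁ : Tri ι₁} {e : ι ≃ ι₁} {p : ι → Equiv.Perm (Fin 4)}
    (h : IsRelabel T T₁ e p) {d : ℕ} {L : (Fin d → ℝ) →ₗ[ℝ] (ι → Fin 3 → ℝ)}
    (hL : IsPar L T.TA) :
    IsPar ((relE e p : (ι → Fin 3 → ℝ) →ₗ[ℝ] (ι₁ → Fin 3 → ℝ)) ∘ₗ L) T₁.TA := by
  constructor
  · exact (relE e p).injective.comp hL.inj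
  · apply le_antisymm
    · rintro _ ⟨y, rfl⟩
      show relE e p (L y) ∈ T₁.TA
      rw [Tri.mem_TA, sys_rel h]
      exact hL.mem y
    · intro x hx
      obtain ⟨x, rfl⟩ := (relE e p).surjective x
      rw [Tri.mem_TA, sys_rel h, ← Tri.mem_TA, ← hL.range] at hx
      obtain ⟨y, hy⟩ := hx
      exact ⟨y, by show relE e p (L y) = _; rw [hy]⟩

theorem ZZ_rel {T : Tri ι} (e : ι ≃ ι₁) (p : ι → Equiv.Perm (Fin 4)) {d : ℕ}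
    {L : (Fin d → ℝ) →ₗ[ℝ] (ι → Fin 3 → ℝ)} (hL : IsPar L T.TA)
    (N : ℕ) (ℓ : (ι → Fin 3 → ℝ) →ₗ[ℝ] ℝ) (ℓ₁ : (ι₁ → Fin 3 → ℝ) →ₗ[ℝ] ℝ) (α : ι → Fin 3 → ℝ)
    (h1 : ∀ x ∈ T.TA, ℓ₁ (relE e p x) = ℓ x) (h2 : ℓ₁ (relE e p α) = ℓ α) :
    ZZ N ((relE e p : (ι → Fin 3 → ℝ) →ₗ[ℝ] (ι₁ → Fin 3 → ℝ)) ∘ₗ L) ℓ₁ (relE e p α) =
      ZZ N L ℓ α := by
  unfold ZZ
  refine MeasureTheory.integral_congr_ae (Filter.Eventually.of_forall fun y => ?_)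
  show ZI N ℓ₁ (relE e p α) (relE e p (L y)) = ZI N ℓ α (L y)
  unfold ZI
  rw [GG_rel, h2, h1 _ (hL.mem y)]

end PTH
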