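import Pool.Agent.PTH.Ind
import Pool.Agent.PTH.ZMove
import Pool.Agent.PTH.ZRel

/-! # Path theorem: comparison of the state integrals along a path -/

open scoped BigOperators
open Pool.Agent.PAN

namespace PTH

variable {m : ℕ}

/-- the functional of the holonomies with multiplier `c` -/
noncomputable def Cusped.ell (X : Cusped m) (c : Fin m → ℝ) : (X.ι → Fin 3 → ℝ) →ₗ[ℝ] ℝ :=
  ∑ k, c k • (X.γ k).holL

theorem Cusped.ell_apply (X : Cusped m) (c : Fin m → ℝ) (α : X.ι → Fin 3 → ℝ) :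
    X.ell c α = ∑ k, c k * (X.γ k).hol α := by
  unfold Cusped.ell
  rw [LinearMap.sum_apply]
  rfl

def Bd (A B : ℕ → ℂ) : Prop :=
  ∀ ε : ℝ, 0 < ε → ∃ N₀ : ℕ, ∀ N : ℕ, N₀ ≤ N → ‖A N‖ ≤ Real.exp (ε * N) * ‖B N‖

theorem Bd.trans {A B C : ℕ → ℂ} (h1 : Bd A B) (h2 : Bd B C) : Bd A C := by
  intro ε hε
  obtain ⟨N₁, hN₁⟩ := h1 (ε / 2) (by linarith)
  obtain ⟨N₂, hN₂⟩ := h2 (ε / 2) (by linarith)
  refine ⟨max N₁ N₂, fun N hN => ?_⟩
  have a1 := hN₁ N ((le_max_left _ _).trans hN)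
  have a2 := hN₂ N ((le_max_right _ _).trans hN)
  calc ‖A N‖ ≤ Real.exp (ε / 2 * N) * ‖B N‖ := a1
    _ ≤ Real.exp (ε / 2 * N) * (Real.exp (ε / 2 * N) * ‖C N‖) :=
        mul_le_mul_of_nonneg_left a2 (Real.exp_pos _).le
    _ = Real.exp (ε * N) * ‖C N‖ := by
        rw [← mul_assoc, ← Real.exp_add]; congr 2; ring

theorem Bd.of_eq {A B : ℕ → ℂ} {N₀ : ℕ} (h : ∀ N, N₀ ≤ N → A N = B N) : Bd A B := by
  intro ε hε
  refine ⟨N₀, fun N hN => ?_⟩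
  rw [h N hN]
  have h1 : 1 ≤ Real.exp (ε * N) := Real.one_le_exp (by positivity)
  nlinarith [norm_nonneg (B N)]

theorem exists_le_exp (M : ℝ) {ε : ℝ} (hε : 0 < ε) : ∃ N₀ : ℕ, ∀ N : ℕ, N₀ ≤ N →
    M ≤ Real.exp (ε * N) := by
  obtain ⟨N₀, hN₀⟩ := exists_nat_ge (M / ε)
  refine ⟨N₀, fun N hN => ?_⟩
  have h1 : M / ε ≤ N := hN₀.trans (by exact_mod_cast hN)
  rw [div_le_iff₀ hε] at h1
  have h2 := Real.add_one_le_exp (ε * N)
  nlinarith

theorem Bd.of_mul {A B : ℕ → ℂ} {c : ℝ} (h : ∀ N, A N = c * B N) : Bd A B := by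
  intro ε hε
  obtain ⟨N₀, hN₀⟩ := exists_le_exp |c| hε
  refine ⟨N₀, fun N hN => ?_⟩
  rw [h N, norm_mul, Complex.norm_real, Real.norm_eq_abs]
  exact mul_le_mul_of_nonneg_right (hN₀ N hN) (norm_nonneg _)

/-- `|Z_X| ≤ e^{o(N)} |Z_Y|` for all parametrisations and angle structures -/
def Comp (c : Fin m → ℝ) (X Y : Cusped m) : Prop :=
  ∀ (d d' : ℕ) (L : (Fin d → ℝ) →ₗ[ℝ] (X.ι → Fin 3 → ℝ))
    (L' : (Fin d' → ℝ) →ₗ[ℝ] (Y.ι → Fin 3 → ℝ)), IsPar L X.T.TA → IsPar L' Y.T.TA →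
    ∀ α ∈ X.T.Ang, ∀ β ∈ Y.T.Ang,
      Bd (fun N => ZZ N L (X.ell c) α) (fun N => ZZ N L' (Y.ell c) β)

def Weak (c : Fin m → ℝ) (X Y : Cusped m) : Prop :=
  ∃ (d d' : ℕ) (L : (Fin d → ℝ) →ₗ[ℝ] (X.ι → Fin 3 → ℝ))
    (L' : (Fin d' → ℝ) →ₗ[ℝ] (Y.ι → Fin 3 → ℝ)) (α : X.ι → Fin 3 → ℝ) (β : Y.ι → Fin 3 → ℝ),
    IsPar L X.T.TA ∧ IsPar L' Y.T.TA ∧ α ∈ X.T.Ang ∧ β ∈ Y.T.Ang ∧
      Bd (fun N => ZZ N L (X.ell c) α) (fun N => ZZ N L' (Y.ell c) β)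

theorem Tri.Ang.isAng {ι : Type} [Fintype ι] {T : Tri ι} {α : ι → Fin 3 → ℝ} (h : α ∈ T.Ang) :
    IsAng α := fun t => ⟨fun i => h.2 t i, h.1.1 t⟩

theorem comp_refl (hg : St_gN) (hZ2 : St_Z2) (hCS : St_CS) (c : Fin m → ℝ) (X : Cusped m) :
    Comp c X X := by
  intro d d' L L' hL hL' α hα β hβ
  obtain ⟨c₀, hc₀, h1⟩ := ZZ_par hL' hL
  obtain ⟨N₀, -, h2⟩ := ind hg hZ2 hCS (V := X.T.TA) (fun x hx t => X.T.sum_TA hx t)
    (Tri.Ang.isAng hα) (Tri.Ang.isAng hβ) (X.T.sub_mem_TA hβ.1 hα.1) hL'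
  exact (Bd.of_mul fun N => h1 N (X.ell c) α).trans (Bd.of_eq fun N hN => h2 N hN (X.ell c))

theorem comp_trans {c : Fin m → ℝ} {X Y Z : Cusped m} (hY : Y.T.Ang.Nonempty)
    (h1 : Comp c X Y) (h2 : Comp c Y Z) : Comp c X Z := by
  intro d d' L L' hL hL' α hα β hβ
  obtain ⟨y, hy⟩ := hY
  obtain ⟨d'', L'', hL''⟩ := exists_par Y.T.TA
  exact (h1 d d'' L L'' hL hL'' α hα y hy).trans (h2 d'' d' L'' L' hL'' hL' y hy β hβ)

theorem comp_of_weak (hg : St_gN) (hZ2 : St_Z2) (hCS : St_CS) {c : Fin m → ℝ} {X Y : Cusped m}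
    (h : Weak c X Y) : Comp c X Y := by
  intro d d' L L' hL hL' α hα β hβ
  obtain ⟨e, e', M, M', α', β', hM, hM', hα', hβ', hb⟩ := h
  exact ((comp_refl hg hZ2 hCS c X d e L M hL hM α hα α' hα').trans hb).trans
    (comp_refl hg hZ2 hCS c Y e' d' M' L' hM' hL' β' hβ' β hβ)

theorem comp_link (hg : St_gN) (hZ2 : St_Z2) (hCS : St_CS) (hJ4 : St_J4) {c : Fin m → ℝ}
    {X Y : Cusped m} (h : Link X Y) (hX : X.T.Ang.Nonempty) (hY : Y.T.Ang.Nonempty) :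
    Comp c X Y ∧ Comp c Y X := by
  cases h with
  | relabel ι ι₁ T T₁ γ γ₁ e p h hγ =>
    obtain ⟨α, hα⟩ := hX
    obtain ⟨d, L, hL⟩ := exists_par T.TA
    have hL₁ := par_rel h hL
    have hα' : α ∈ T.Ang := hα
    have hα₁ : relE e p α ∈ T₁.Ang := (ang_rel h α).2 hα'
    have hhol : ∀ x ∈ T.Sys Real.pi, ∀ k, (γ₁ k).hol (relE e p x) = (γ k).hol x :=
      fun x hx k => hγ k x hx _ (relE_rel e p x)
    have hA : (Cusped.ell ⟨ι₁, inferInstance, T₁, γ₁⟩ c) (relE e p α) =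
        (Cusped.ell ⟨ι, inferInstance, T, γ⟩ c) α := by
      rw [Cusped.ell_apply, Cusped.ell_apply]
      exact Finset.sum_congr rfl fun k _ => by rw [hhol α hα'.1 k]
    have hTA : ∀ x ∈ T.TA, (Cusped.ell ⟨ι₁, inferInstance, T₁, γ₁⟩ c) (relE e p x) =
        (Cusped.ell ⟨ι, inferInstance, T, γ⟩ c) x := by
      intro x hx
      rw [Cusped.ell_apply, Cusped.ell_apply]
      refine Finset.sum_congr rfl fun k _ => ?_
      have h1 := hhol (α + x) (T.add_TA hα'.1 hx) k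
      have h2 := hhol α hα'.1 k
      rw [map_add, ← Curve.holL_apply, ← Curve.holL_apply, map_add, map_add, Curve.holL_apply,
        Curve.holL_apply, Curve.holL_apply, Curve.holL_apply] at h1
      have h3 : (γ₁ k).hol (relE e p x) = (γ k).hol x := by linarith
      rw [h3]
    have key : ∀ N, ZZ N ((relE e p : (ι → Fin 3 → ℝ) →ₗ[ℝ] (ι₁ → Fin 3 → ℝ)) ∘ₗ L)
        (Cusped.ell ⟨ι₁, inferInstance, T₁, γ₁⟩ c) (relE e p α) =
        ZZ N L (Cusped.ell ⟨ι, inferInstance, T, γ⟩ c) α :=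
      fun N => ZZ_rel (T := T) e p hL N _ _ α hTA hA
    refine ⟨comp_of_weak hg hZ2 hCS ⟨d, d, L, _, α, relE e p α, hL, hL₁, hα, hα₁,
      Bd.of_eq (N₀ := 0) fun N _ => (key N).symm⟩, comp_of_weak hg hZ2 hCS ⟨d, d, _, L,
      relE e p α, α, hL₁, hL, hα₁, hα, Bd.of_eq (N₀ := 0) fun N _ => key N⟩⟩
  | move R T T' γ γ' h hγ =>
    obtain ⟨α, hα⟩ := hY
    have hα' : α ∈ T'.Ang := hα
    obtain ⟨d, L, hL⟩ := exists_par T.TA
    have hL' := par_move h hL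
    have hsys := (sys_move h Real.pi α).1 hα'.1
    have hp : push α ∈ T.Ang := by
      refine ⟨hsys.2.2, fun t i => ?_⟩
      rcases t with r | a
      · exact hα'.2 _ _
      · fin_cases a
        · exact add_pos (hα'.2 _ _) (hα'.2 _ _)
        · exact add_pos (hα'.2 _ _) (hα'.2 _ _)
    obtain ⟨κ, hκ, hκε⟩ := hJ4
    have hstar : ∀ N, 6 ≤ N → StarN N (κ N) := fun N hN a b ha hb hab =>
      ((hκ N hN).2 a b ha hb hab).2
    obtain ⟨N₁, hN₁, hz⟩ := zmove hg hZ2 hstar h hα' hL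
    have hA : (Cusped.ell ⟨R ⊕ Fin 3, inferInstance, T', γ'⟩ c) α =
        (Cusped.ell ⟨R ⊕ Fin 2, inferInstance, T, γ⟩ c) (push α) := by
      rw [Cusped.ell_apply, Cusped.ell_apply]
      exact Finset.sum_congr rfl fun k _ => by rw [hγ k α hα'.1]
    have hTA : ∀ x ∈ T'.TA, (Cusped.ell ⟨R ⊕ Fin 3, inferInstance, T', γ'⟩ c) x =
        (Cusped.ell ⟨R ⊕ Fin 2, inferInstance, T, γ⟩ c) (push x) := by
      intro x hx
      rw [Cusped.ell_apply, Cusped.ell_apply]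
      refine Finset.sum_congr rfl fun k _ => ?_
      have h1 := hγ k (α + x) (T'.add_TA hα'.1 hx)
      have h2 := hγ k α hα'.1
      rw [← pushL_apply, map_add, ← Curve.holL_apply, ← Curve.holL_apply, map_add, map_add,
        Curve.holL_apply, Curve.holL_apply, Curve.holL_apply, Curve.holL_apply, pushL_apply,
        pushL_apply] at h1
      have h3 : (γ' k).hol x = (γ k).hol (push x) := by linarith
      rw [h3]
    have key : ∀ N, N₁ ≤ N → ZZ N (consL (ker₃ R) (sec₃ R ∘ₗ L))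
        (Cusped.ell ⟨R ⊕ Fin 3, inferInstance, T', γ'⟩ c) α =
        κ N * ZZ N L (Cusped.ell ⟨R ⊕ Fin 2, inferInstance, T, γ⟩ c) (push α) :=
      fun N hN => hz N hN _ _ hTA hA
    constructor
    · refine comp_of_weak hg hZ2 hCS ⟨d, d + 1, L, _, push α, α, hL, hL', hp, hα, ?_⟩
      intro ε hε
      obtain ⟨N₂, hN₂⟩ := hκε ε hε
      refine ⟨max N₁ N₂, fun N hN => ?_⟩
      have hNa := (le_max_left N₁ N₂).trans hN
      have hNb := (le_max_right N₁ N₂).trans hN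
      show _ ≤ Real.exp (ε * N) * ‖ZZ N (consL (ker₃ R) (sec₃ R ∘ₗ L))
        (Cusped.ell ⟨R ⊕ Fin 3, inferInstance, T', γ'⟩ c) α‖
      rw [key N hNa, norm_mul, Complex.norm_real, Real.norm_eq_abs, ← mul_assoc]
      have h1 : 1 ≤ Real.exp (ε * N) * |κ N| := by
        have h2 := (hN₂ N hNb).1
        have h3 : Real.exp (ε * N) * Real.exp (-(ε * N)) = 1 := by
          rw [← Real.exp_add]; simp
        calc (1 : ℝ) = Real.exp (ε * N) * Real.exp (-(ε * N)) := h3.symm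
          _ ≤ Real.exp (ε * N) * |κ N| :=
            mul_le_mul_of_nonneg_left (h2.trans (le_abs_self _)) (Real.exp_pos _).le
      nlinarith [norm_nonneg (ZZ N L (Cusped.ell ⟨R ⊕ Fin 2, inferInstance, T, γ⟩ c) (push α))]
    · refine comp_of_weak hg hZ2 hCS ⟨d + 1, d, _, L, α, push α, hL', hL, hα, hp, ?_⟩
      intro ε hε
      obtain ⟨N₂, hN₂⟩ := hκε ε hε
      refine ⟨max N₁ N₂, fun N hN => ?_⟩
      have hNa := (le_max_left N₁ N₂).trans hN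
      have hNb := (le_max_right N₁ N₂).trans hN
      show ‖ZZ N (consL (ker₃ R) (sec₃ R ∘ₗ L))
        (Cusped.ell ⟨R ⊕ Fin 3, inferInstance, T', γ'⟩ c) α‖ ≤ _
      rw [key N hNa, norm_mul, Complex.norm_real, Real.norm_eq_abs]
      have h2 := hN₂ N hNb
      have h3 : |κ N| ≤ Real.exp (ε * N) := by
        rw [abs_of_pos ((Real.exp_pos _).trans_le h2.1)]
        exact h2.2
      exact mul_le_mul_of_nonneg_right h3 (norm_nonneg _)

theorem comp_path (hg : St_gN) (hZ2 : St_Z2) (hCS : St_CS) (hJ4 : St_J4) {c : Fin m → ℝ}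
    {X Y : Cusped m} (h : Relation.ReflTransGen PathStep X Y) : Comp c X Y := by
  induction h with
  | refl => exact comp_refl hg hZ2 hCS c X
  | tail _ hs ih =>
    obtain ⟨hl, hn1, hn2⟩ := hs
    refine comp_trans hn1 ih ?_
    rcases hl with hl | hl
    · exact (comp_link hg hZ2 hCS hJ4 hl hn1 hn2).1
    · exact (comp_link hg hZ2 hCS hJ4 hl hn2 hn1).2

end PTH
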