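import Pool.Agent.PTH.Int

/-! # Path theorem: parametrisations with a distinguished direction -/

open scoped BigOperators
open Pool.Agent.PAN

namespace PTH

variable {J : Type} [Fintype J]

/-- `x ↦ x 0 • v + L₀ (tail x)` -/
def consL {d : ℕ} {J' : Type} (v : J' → Fin 3 → ℝ) (L₀ : (Fin d → ℝ) →ₗ[ℝ] (J' → Fin 3 → ℝ)) :
    (Fin (d + 1) → ℝ) →ₗ[ℝ] (J' → Fin 3 → ℝ) where
  toFun x := x 0 • v + L₀ (Fin.tail x)
  map_add' x y := by
    have : Fin.tail (x + y) = Fin.tail x + Fin.tail y := rfl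
    rw [this, map_add, Pi.add_apply, add_smul]
    abel
  map_smul' c x := by
    have : Fin.tail (c • x) = c • Fin.tail x := rfl
    rw [this, map_smul, Pi.smul_apply, smul_eq_mul, RingHom.id_apply, smul_add, smul_smul]

theorem consL_cons {d : ℕ} {J' : Type} (v : J' → Fin 3 → ℝ)
    (L₀ : (Fin d → ℝ) →ₗ[ℝ] (J' → Fin 3 → ℝ)) (s : ℝ) (y : Fin d → ℝ) :
    consL v L₀ (Fin.cons s y) = s • v + L₀ y := by
  show (Fin.cons s y : Fin (d + 1) → ℝ) 0 • v + L₀ (Fin.tail (Fin.cons s y : Fin (d + 1) → ℝ)) = _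
  rw [Fin.cons_zero, Fin.tail_cons]

theorem exists_par_cons (V : Submodule ℝ (J → Fin 3 → ℝ)) {v : J → Fin 3 → ℝ} (hv : v ∈ V)
    (hv0 : v ≠ 0) : ∃ (d : ℕ) (L₀ : (Fin d → ℝ) →ₗ[ℝ] (J → Fin 3 → ℝ)),
      (∀ y, L₀ y ∈ V) ∧ IsPar (consL v L₀) V := by
  obtain ⟨t₀, i₀, h0⟩ : ∃ t₀ i₀, v t₀ i₀ ≠ 0 := by
    by_contra hc
    push Not at hc
    exact hv0 (funext fun t => funext fun i => hc t i)
  let f : (J → Fin 3 → ℝ) →ₗ[ℝ] ℝ := (LinearMap.proj i₀ : (Fin 3 → ℝ) →ₗ[ℝ] ℝ) ∘ₗ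
    (LinearMap.proj t₀ : (J → Fin 3 → ℝ) →ₗ[ℝ] (Fin 3 → ℝ))
  have hf : ∀ x, f x = x t₀ i₀ := fun x => rfl
  obtain ⟨d, L₀, hL₀⟩ := exists_par (V ⊓ LinearMap.ker f)
  have h1 : ∀ y, L₀ y ∈ V := fun y => (hL₀.mem y).1
  have h2 : ∀ y, f (L₀ y) = 0 := fun y => LinearMap.mem_ker.1 (hL₀.mem y).2
  refine ⟨d, L₀, h1, ?_, ?_⟩
  · rw [← LinearMap.ker_eq_bot, LinearMap.ker_eq_bot']
    intro x hx
    have hx' : x 0 • v + L₀ (Fin.tail x) = 0 := hx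
    have h3 : x 0 * v t₀ i₀ = 0 := by
      have := congrArg f hx'
      rw [map_add, map_smul, h2, map_zero, add_zero, smul_eq_mul, hf] at this
      exact this
    have h4 : x 0 = 0 := (mul_eq_zero.1 h3).resolve_right h0
    rw [h4, zero_smul, zero_add] at hx'
    have h5 : Fin.tail x = 0 := hL₀.inj (by rw [hx', map_zero])
    funext j
    refine Fin.cases h4 (fun k => ?_) j
    exact congrFun h5 k
  · apply le_antisymm
    · rintro _ ⟨x, rfl⟩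
      exact V.add_mem (V.smul_mem _ hv) (h1 _)
    · intro x hx
      have hw : x - (x t₀ i₀ / v t₀ i₀) • v ∈ V ⊓ LinearMap.ker f := by
        refine ⟨V.sub_mem hx (V.smul_mem _ hv), ?_⟩
        rw [SetLike.mem_coe, LinearMap.mem_ker, map_sub, map_smul, hf, hf, smul_eq_mul,
          div_mul_cancel₀ _ h0, sub_self]
      rw [← hL₀.range] at hw
      obtain ⟨y, hy⟩ := hw
      refine ⟨Fin.cons (x t₀ i₀ / v t₀ i₀) y, ?_⟩
      rw [consL_cons, hy]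
      abel

end PTH
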