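import Mathlib

/-!
# Path theorem for the generalised Casson conjecture (MP_7b8e17_gt): combinatorial definitions

Labelled triangulations (finitely many tetrahedra with vertices `0,1,2,3`, faces glued in pairs),
their angle structures, closed normal curves in the induced cusp triangulation with their angular
holonomy, relabellings and the 2-3 move.
-/

open scoped BigOperators

namespace PTH

/-- The three pairs of opposite edges of the standard tetrahedron are numbered by `Fin 3`:
`{0,1}` and `{2,3}` have number `0`, `{0,2}` and `{1,3}` have number `1`,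
`{0,3}` and `{1,2}` have number `2`.  (The value on `v = w` is irrelevant.) -/
def q : Fin 4 → Fin 4 → Fin 3
  | 0, 1 => 0 | 1, 0 => 0 | 2, 3 => 0 | 3, 2 => 0
  | 0, 2 => 1 | 2, 0 => 1 | 1, 3 => 1 | 3, 1 => 1
  | 0, 3 => 2 | 3, 0 => 2 | 1, 2 => 2 | 2, 1 => 2
  | _, _ => 0

theorem q_comm (v w : Fin 4) : q v w = q w v := by revert v w; decide

/-- `q` on unordered pairs. -/
def qs (s : Sym2 (Fin 4)) : Fin 3 := Sym2.lift ⟨q, q_comm⟩ s

/-- A labelled triangulation with set of tetrahedra `ι`: the face of the tetrahedron `t` opposite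
to its vertex `f` is glued to the face of the tetrahedron `adj t f` opposite to its vertex
`gl t f f`, the vertex `v ≠ f` of the first face being identified with the vertex `gl t f v` of
the second; the gluing is symmetric and no face is glued to itself. `ori t` is the orientation
of the labelled tetrahedron `t`: the gluings reverse the orientations of the faces. -/
structure Tri (ι : Type) where
  adj : ι → Fin 4 → ι
  gl : ι → Fin 4 → Equiv.Perm (Fin 4)
  ori : ι → ℤˣ
  adj_adj : ∀ t f, adj (adj t f) (gl t f f) = t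
  gl_gl : ∀ t f, gl (adj t f) (gl t f f) = (gl t f)⁻¹
  irr : ∀ t f, ¬ (adj t f = t ∧ gl t f f = f)
  ori_adj : ∀ t f, ori (adj t f) = - (Equiv.Perm.sign (gl t f) * ori t)

variable {ι : Type}

/-- A gluing step between model edges (tetrahedron, pair of vertices). -/
inductive Tri.Step (T : Tri ι) : ι × Sym2 (Fin 4) → ι × Sym2 (Fin 4) → Prop
  | glue (t : ι) (f : Fin 4) (s : Sym2 (Fin 4)) (h : f ∉ s) :
      Tri.Step T (t, s) (T.adj t f, s.map (T.gl t f))

/-- Two model edges are identified in the triangulation. -/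
def Tri.Same (T : Tri ι) (a b : ι × Sym2 (Fin 4)) : Prop := Relation.EqvGen T.Step a b

open Classical in
/-- The sum of the angles at the model edges identified with the model edge `e`. -/
noncomputable def Tri.edgeSum [Fintype ι] (T : Tri ι) (e : ι × Sym2 (Fin 4))
    (α : ι → Fin 3 → ℝ) : ℝ :=
  ∑ x ∈ (Finset.univ : Finset (ι × Sym2 (Fin 4))).filter
    (fun x => ¬ x.2.IsDiag ∧ T.Same e x), α x.1 (qs x.2)

/-- Real valued assignments of angles to the pairs of opposite edges of the tetrahedra with sum `κ`
in every tetrahedron and sum `2κ` around every edge. -/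
def Tri.Sys [Fintype ι] (T : Tri ι) (κ : ℝ) : Set (ι → Fin 3 → ℝ) :=
  {α | (∀ t, ∑ i, α t i = κ) ∧
    ∀ e : ι × Sym2 (Fin 4), ¬ e.2.IsDiag → T.edgeSum e α = 2 * κ}

/-- Angle structures of the triangulation. -/
def Tri.Ang [Fintype ι] (T : Tri ι) : Set (ι → Fin 3 → ℝ) :=
  {α | α ∈ T.Sys Real.pi ∧ ∀ t i, 0 < α t i}

/-- The sign of the permutation `(v,f,g,h)` of `(0,1,2,3)`, `h` the remaining label. -/
def chir (v f g : Fin 4) : ℤ :=
  let h : ℤ := 6 - v.val - f.val - g.val
  Int.sign ((f.val - v.val : ℤ) * (g.val - v.val) * (h - v.val) * (g.val - f.val) *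
    (h - f.val) * (h - g.val))

/-- A closed normal curve in the induced triangulation of the cusps: a cyclic sequence of triangles
`(t, v)` (the triangle of the tetrahedron `t` at its vertex `v`), entered through the side in the
face `f` and left through the side in the face `g`. -/
structure Curve (T : Tri ι) where
  len : ℕ
  pos : 0 < len
  t : ZMod len → ι
  v : ZMod len → Fin 4
  f : ZMod len → Fin 4
  g : ZMod len → Fin 4
  vf : ∀ k, v k ≠ f k
  vg : ∀ k, v k ≠ g k
  fg : ∀ k, f k ≠ g k
  t_next : ∀ k, t (k + 1) = T.adj (t k) (g k)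
  v_next : ∀ k, v (k + 1) = T.gl (t k) (g k) (v k)
  f_next : ∀ k, f (k + 1) = T.gl (t k) (g k) (g k)

/-- The angular holonomy of a closed normal curve: the sum of the angles of the corners it passes
on its left minus the sum of the angles of the corners it passes on its right. In the triangle
`(t,v)` the curve passes the corner on the edge from `v` to the remaining vertex `h`, opposite to
the edge from `f` to `g`. -/
noncomputable def Curve.hol {T : Tri ι} (c : Curve T) (α : ι → Fin 3 → ℝ) : ℝ :=
  haveI : NeZero c.len := ⟨c.pos.ne'⟩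
  ∑ k : ZMod c.len, ((chir (c.v k) (c.f k) (c.g k) * (T.ori (c.t k) : ℤ) : ℤ) : ℝ) *
    α (c.t k) (q (c.f k) (c.g k))

/-- The effect of a permutation of the vertices on the three pairs of opposite edges
(`i.succ` is the vertex joined to `0` by the edge of the pair number `i`). -/
def pq (p : Equiv.Perm (Fin 4)) (i : Fin 3) : Fin 3 := q (p 0) (p i.succ)

/-- `T₁` is obtained from `T` by renaming the tetrahedra (by `e`) and the vertices of every
tetrahedron `t` (by `p t`). -/
def IsRelabel {ι ι₁ : Type} (T : Tri ι) (T₁ : Tri ι₁) (e : ι ≃ ι₁)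
    (p : ι → Equiv.Perm (Fin 4)) : Prop :=
  (∀ t f, T₁.adj (e t) (p t f) = e (T.adj t f)) ∧
  (∀ t f, T₁.gl (e t) (p t f) = p (T.adj t f) * T.gl t f * (p t)⁻¹) ∧
  (∀ t, T₁.ori (e t) = Equiv.Perm.sign (p t) * T.ori t)

/-- `α₁` is the angle assignment `α` after the renaming. -/
def RelabelAng {ι ι₁ : Type} (e : ι ≃ ι₁) (p : ι → Equiv.Perm (Fin 4))
    (α : ι → Fin 3 → ℝ) (α₁ : ι₁ → Fin 3 → ℝ) : Prop :=
  ∀ t i, α₁ (e t) (pq (p t) i) = α t i

/-! ### The 2-3 move

The bipyramid has the apices `N`, `S` and the equatorial vertices `1, 2, 3`.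
Before the move it consists of the tetrahedra `inr 0 = (N,1,2,3)` and `inr 1 = (S,1,2,3)` (vertex
`0` is the apex, the equatorial vertices keep their names), glued along their faces `0`.
After the move it consists, for `i : Fin 3`, of the tetrahedra `inr i`, whose vertex `0` is `N`,
whose vertex `i.succ` is `S` and whose two other vertices are the equatorial vertices with their own
names. -/

/-- The faces which are not inside the bipyramid: all faces of the other tetrahedra, and
for `i : Fin 3` the faces of the bipyramid with apex `N` (`top i`) and with apex `S` (`bot i`) which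
do not contain the equatorial vertex `i.succ`. -/
inductive Outer (R : Type)
  | rest (r : R) (f : Fin 4) : Outer R
  | top (i : Fin 3) : Outer R
  | bot (i : Fin 3) : Outer R

section Move

variable {R : Type}

/-- the tetrahedron containing an outer face, before the move -/
def Outer.t₂ : Outer R → R ⊕ Fin 2
  | rest r _ => Sum.inl r
  | top _ => Sum.inr 0
  | bot _ => Sum.inr 1

/-- the number of an outer face in its tetrahedron, before the move -/
def Outer.f₂ : Outer R → Fin 4
  | rest _ f => f
  | top i => i.succ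
  | bot i => i.succ

/-- the tetrahedron containing an outer face, after the move -/
def Outer.t₃ : Outer R → R ⊕ Fin 3
  | rest r _ => Sum.inl r
  | top i => Sum.inr i
  | bot i => Sum.inr i

/-- the number of an outer face in its tetrahedron, after the move -/
def Outer.f₃ : Outer R → Fin 4
  | rest _ f => f
  | top i => i.succ
  | bot _ => 0

/-- the vertices of an outer face: their names before the move are mapped to their names after the
move -/
def Outer.lab : Outer R → Equiv.Perm (Fin 4)
  | rest _ _ => 1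
  | top _ => 1
  | bot i => Equiv.swap 0 i.succ

/-- `T'` is obtained from `T` by a 2-3 move. -/
structure IsMove (T : Tri (R ⊕ Fin 2)) (T' : Tri (R ⊕ Fin 3)) : Prop where
  adj_in : T.adj (Sum.inr 0) 0 = Sum.inr 1
  gl_in : T.gl (Sum.inr 0) 0 = 1
  adj_in' : ∀ i j : Fin 3, i ≠ j → T'.adj (Sum.inr i) j.succ = Sum.inr j
  gl_in' : ∀ i j : Fin 3, i ≠ j → T'.gl (Sum.inr i) j.succ = Equiv.swap i.succ j.succ
  adj_out : ∀ o o' : Outer R, T.adj o.t₂ o.f₂ = o'.t₂ → T.gl o.t₂ o.f₂ o.f₂ = o'.f₂ →
    T'.adj o.t₃ o.f₃ = o'.t₃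
  gl_out : ∀ o o' : Outer R, T.adj o.t₂ o.f₂ = o'.t₂ → T.gl o.t₂ o.f₂ o.f₂ = o'.f₂ →
    T'.gl o.t₃ o.f₃ = o'.lab * T.gl o.t₂ o.f₂ * (o.lab)⁻¹
  ori_rest : ∀ r, T'.ori (Sum.inl r) = T.ori (Sum.inl r)
  ori_in : ∀ i, T'.ori (Sum.inr i) = T.ori (Sum.inr 0)

/-- The dihedral angles of the tetrahedra before the move, from those after the move: the angle at
the edge from `N` (or `S`) to the equatorial vertex `j.succ` is the sum of the two angles after the
move. -/
def push (α : R ⊕ Fin 3 → Fin 3 → ℝ) : R ⊕ Fin 2 → Fin 3 → ℝ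
  | Sum.inl r, j => α (Sum.inl r) j
  | Sum.inr 0, j => α (Sum.inr (j + 1)) j + α (Sum.inr (j + 2)) j
  | Sum.inr 1, j => α (Sum.inr (j + 1)) (j + 2) + α (Sum.inr (j + 2)) (j + 1)

end Move

/-! ### Triangulations with curves -/

/-- A triangulation with an `m`-tuple of closed normal curves. -/
structure Cusped (m : ℕ) where
  ι : Type
  fin : Fintype ι
  T : Tri ι
  γ : Fin m → Curve T

attribute [instance] Cusped.fin

/-- The angle structures which satisfy the slope conditions for all curves. -/
def Cusped.AngS {m : ℕ} (X : Cusped m) : Set (X.ι → Fin 3 → ℝ) :=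
  {α | α ∈ X.T.Ang ∧ ∀ k, (X.γ k).hol α = 2 * Real.pi}

/-- Two triangulations with curves are related by renaming, or the second is obtained from the
first by a 2-3 move. In both cases the curves correspond to each other, which means that they have
the same angular holonomies for all real valued angle structures. -/
inductive Link {m : ℕ} : Cusped m → Cusped m → Prop
  | relabel (ι ι₁ : Type) [Fintype ι] [Fintype ι₁] (T : Tri ι) (T₁ : Tri ι₁)
      (γ : Fin m → Curve T) (γ₁ : Fin m → Curve T₁) (e : ι ≃ ι₁) (p : ι → Equiv.Perm (Fin 4))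
      (h : IsRelabel T T₁ e p)
      (hγ : ∀ k, ∀ α ∈ T.Sys Real.pi, ∀ α₁, RelabelAng e p α α₁ → (γ₁ k).hol α₁ = (γ k).hol α) :
      Link ⟨ι, inferInstance, T, γ⟩ ⟨ι₁, inferInstance, T₁, γ₁⟩
  | move (R : Type) [Fintype R] (T : Tri (R ⊕ Fin 2)) (T' : Tri (R ⊕ Fin 3))
      (γ : Fin m → Curve T) (γ' : Fin m → Curve T') (h : IsMove T T')
      (hγ : ∀ k, ∀ α ∈ T'.Sys Real.pi, (γ' k).hol α = (γ k).hol (push α)) :
      Link ⟨R ⊕ Fin 2, inferInstance, T, γ⟩ ⟨R ⊕ Fin 3, inferInstance, T', γ'⟩

/-- One step of a path: a renaming, a 2-3 move or a 3-2 move between triangulations which both have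
angle structures (no slope condition). -/
def PathStep {m : ℕ} (X Y : Cusped m) : Prop :=
  (Link X Y ∨ Link Y X) ∧ X.T.Ang.Nonempty ∧ Y.T.Ang.Nonempty

/-- The Lobachevsky function. -/
noncomputable def Lob (x : ℝ) : ℝ := -∫ t in (0 : ℝ)..x, Real.log |2 * Real.sin t|

/-- The volume functional. -/
noncomputable def Vol {ι : Type} [Fintype ι] (α : ι → Fin 3 → ℝ) : ℝ := ∑ t, ∑ i, Lob (α t i)

end PTH
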