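import Pool.Agent.PTH.ZDef

/-! # Path theorem: domination of the integrand -/

open scoped BigOperators
open Pool.Agent.PAN

namespace PTH

variable {J : Type} [Fintype J]

omit [Fintype J] in
theorem ang_lt_pi {α : J → Fin 3 → ℝ} (h : IsAng α) (t : J) (i : Fin 3) : α t i < Real.pi := by
  obtain ⟨h1, h2⟩ := h t
  rw [Fin.sum_univ_three] at h2
  have p0 := h1 0
  have p1 := h1 1
  have p2 := h1 2
  fin_cases i
  · show α t 0 < _; linarith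
  · show α t 1 < _; linarith
  · show α t 2 < _; linarith

theorem re_arg (N : ℕ) (a x : ℝ) :
    (((N : ℂ) + 1) * ((a : ℂ) + (x : ℂ) * Complex.I) / (Real.pi : ℂ)).re =
      (N + 1) * a / Real.pi := by
  have : (((N : ℂ) + 1) * ((a : ℂ) + (x : ℂ) * Complex.I) / (Real.pi : ℂ)) =
      (((N + 1) * a / Real.pi : ℝ) : ℂ) + (((N + 1) * x / Real.pi : ℝ) : ℂ) * Complex.I := by
    push_cast
    ring
  rw [this]
  simp

theorem re_pos {N : ℕ} {a : ℝ} (h0 : 0 < a) (x : ℝ) :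
    0 < (((N : ℂ) + 1) * ((a : ℂ) + (x : ℂ) * Complex.I) / (Real.pi : ℂ)).re := by
  rw [re_arg]
  have := Real.pi_pos
  positivity

theorem re_lt {N : ℕ} {a : ℝ} (h0 : a < Real.pi) (x : ℝ) :
    (((N : ℂ) + 1) * ((a : ℂ) + (x : ℂ) * Complex.I) / (Real.pi : ℂ)).re < N + 1 := by
  rw [re_arg, div_lt_iff₀ Real.pi_pos]
  have : (0 : ℝ) < N + 1 := by positivity
  nlinarith

theorem cont_GG (hg : St_gN) {N : ℕ} (hN : 1 ≤ N) {α : J → Fin 3 → ℝ} (hα : IsAng α) :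
    Continuous (fun x : J → Fin 3 → ℝ => GG N (cx α x)) := by
  unfold GG WN cx
  refine continuous_finsetProd _ fun t _ => continuous_finsetProd _ fun i _ => ?_
  rw [continuous_iff_continuousAt]
  intro x
  have h1 : ContinuousAt (gN N) (((N : ℂ) + 1) * ((α t i : ℂ) + (x t i : ℂ) * Complex.I) /
      (Real.pi : ℂ)) :=
    ((hg N hN).1 _ (re_pos ((hα t).1 i) _) (re_lt (ang_lt_pi hα t i) _)).continuousAt
  have h2 : Continuous (fun x : J → Fin 3 → ℝ =>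
      ((N : ℂ) + 1) * ((α t i : ℂ) + (x t i : ℂ) * Complex.I) / (Real.pi : ℂ)) := by
    fun_prop
  exact ContinuousAt.comp (f := fun x : J → Fin 3 → ℝ =>
      ((N : ℂ) + 1) * ((α t i : ℂ) + (x t i : ℂ) * Complex.I) / (Real.pi : ℂ)) h1 h2.continuousAt

theorem cont_ZI (hg : St_gN) {N : ℕ} (hN : 1 ≤ N) (ℓ : (J → Fin 3 → ℝ) →ₗ[ℝ] ℝ)
    {α : J → Fin 3 → ℝ} (hα : IsAng α) :
    Continuous (fun x : J → Fin 3 → ℝ => ZI N ℓ α x) := by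
  unfold ZI
  refine (cont_GG hg hN hα).mul ?_
  have hℓ : Continuous ℓ := ℓ.continuous_of_finiteDimensional
  fun_prop

theorem norm_char (N : ℕ) (a b : ℝ) :
    ‖Complex.exp (((N / Real.pi : ℝ) : ℂ) * ((a : ℂ) + (b : ℂ) * Complex.I))‖ =
      Real.exp (N / Real.pi * a) := by
  rw [Complex.norm_exp]
  congr 1
  simp

theorem ZI_eq_zz (N : ℕ) (ℓ : (J → Fin 3 → ℝ) →ₗ[ℝ] ℝ) (α x : J → Fin 3 → ℝ) :
    ZI N ℓ α x = zz N ℓ α x := rfl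

/-- **Domination.** -/
theorem ZI_bound (hZ2 : St_Z2) {d : ℕ} {L : (Fin d → ℝ) →ₗ[ℝ] (J → Fin 3 → ℝ)}
    (hL : Function.Injective L) (h0 : ∀ y t, ∑ i, L y t i = 0) {δ : ℝ} (hδ : 0 < δ) :
    ∃ (c C : ℝ) (N₀ : ℕ), 0 < c ∧ 0 < C ∧ 1 ≤ N₀ ∧ ∀ N : ℕ, N₀ ≤ N →
      ∀ (ℓ : (J → Fin 3 → ℝ) →ₗ[ℝ] ℝ) (α : J → Fin 3 → ℝ), (∀ t i, δ ≤ α t i) →
      (∀ t, ∑ i, α t i = Real.pi) → ∀ y, ‖ZI N ℓ α (L y)‖ ≤
        C * Real.exp (N / Real.pi * (ℓ α - Pool.Agent.PAN.Vol α)) * Real.exp (-c * ‖y‖) := by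
  obtain ⟨c, C, N₀, hc, hC, hN₀, hb⟩ := hZ2 J δ hδ
  obtain ⟨κ, hκ, hanti⟩ := L.exists_antilipschitzWith (LinearMap.ker_eq_bot.2 hL)
  have hκ' : (0 : ℝ) < κ := hκ
  have hlow : ∀ y, ‖y‖ ≤ κ * ‖L y‖ := fun y => by
    have := hanti.le_mul_dist y 0
    simpa using this
  refine ⟨c / κ, C * Real.exp c, N₀, by positivity, by positivity, hN₀,
    fun N hN ℓ α hα hs y => ?_⟩
  have hN1 : (1 : ℝ) ≤ N := by exact_mod_cast hN₀.trans hN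
  rw [ZI_eq_zz]
  refine (hb N hN ℓ α (L y) hα hs (h0 y)).trans ?_
  have h3 : ‖L y‖ - 1 ≤ min ‖L y‖ (‖L y‖ ^ 2) := by
    refine le_min (by linarith [norm_nonneg (L y)]) ?_
    nlinarith [sq_nonneg (‖L y‖ - 1 / 2)]
  have h4 : 0 ≤ min ‖L y‖ (‖L y‖ ^ 2) := le_min (norm_nonneg _) (by positivity)
  have h5 : min ‖L y‖ (‖L y‖ ^ 2) ≤ N * min ‖L y‖ (‖L y‖ ^ 2) := by nlinarith
  have h8 : c / κ * ‖y‖ ≤ c * ‖L y‖ := by
    rw [div_mul_eq_mul_div, div_le_iff₀ hκ']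
    nlinarith [hlow y]
  have h6 : -c * N * min ‖L y‖ (‖L y‖ ^ 2) ≤ c + -(c / κ) * ‖y‖ := by nlinarith
  calc C * Real.exp (N / Real.pi * (ℓ α - Pool.Agent.PAN.Vol α)) *
        Real.exp (-c * N * min ‖L y‖ (‖L y‖ ^ 2))
      ≤ C * Real.exp (N / Real.pi * (ℓ α - Pool.Agent.PAN.Vol α)) *
        Real.exp (c + -(c / κ) * ‖y‖) := by
        refine mul_le_mul_of_nonneg_left (Real.exp_le_exp.2 h6) (by positivity)
    _ = _ := by rw [Real.exp_add]; ring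

end PTH
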