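import Pool.Agent.PTH.Cons

/-! # Path theorem: integration over the fibre of the 2-3 move -/

open scoped BigOperators
open Pool.Agent.PAN

namespace PTH

/-- star-triangle relation for one `N` -/
def StarN (N : ℕ) (κ : ℝ) : Prop := ∀ a b : Fin 3 → ℂ, (∀ j, 0 < (a j).re) →
  (∀ j, 0 < (b j).re) → ∑ j, (a j + b j) = Real.pi →
  ∫ s : ℝ, ∏ j, (gN N ((N + 1) * (a j + s * Complex.I) / Real.pi) *
    gN N ((N + 1) * (b j - s * Complex.I) / Real.pi)) =
  κ * ∏ j, ∏ k, gN N ((N + 1) * (a j + b k) / Real.pi)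

variable {R : Type} [Fintype R]

theorem WN_three (N : ℕ) (w : Fin 3 → ℂ) : WN N w =
    gN N ((N + 1) * w 0 / Real.pi) * gN N ((N + 1) * w 1 / Real.pi) *
      gN N ((N + 1) * w 2 / Real.pi) := by
  unfold WN
  rw [Fin.prod_univ_three]

omit [Fintype R] in
theorem cx_ker (α x : R ⊕ Fin 3 → Fin 3 → ℝ) (s : ℝ) (i : Fin 3) :
    cx α (s • ker₃ R + x) (Sum.inr i) i = cx α x (Sum.inr i) i ∧
    cx α (s • ker₃ R + x) (Sum.inr i) (i + 1) = cx α x (Sum.inr i) (i + 1) + s * Complex.I ∧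
    cx α (s • ker₃ R + x) (Sum.inr i) (i + 2) = cx α x (Sum.inr i) (i + 2) - s * Complex.I := by
  have h0 : ker₃ R (Sum.inr i) i = 0 ∧ ker₃ R (Sum.inr i) (i + 1) = 1 ∧
      ker₃ R (Sum.inr i) (i + 2) = -1 := by
    fin_cases i <;> simp [ker₃]
  obtain ⟨h0, h1, h2⟩ := h0
  unfold cx
  simp only [Pi.add_apply, Pi.smul_apply, smul_eq_mul, h0, h1, h2]
  refine ⟨?_, ?_, ?_⟩ <;> push_cast <;> ring

theorem prod_rot (F : Fin 3 → ℂ) (i : Fin 3) : F 0 * F 1 * F 2 = F i * F (i + 1) * F (i + 2) := by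
  fin_cases i
  · rfl
  · show F 0 * F 1 * F 2 = F 1 * F 2 * F 0
    ring
  · show F 0 * F 1 * F 2 = F 2 * F 0 * F 1
    ring

theorem WN_rot (N : ℕ) (w : Fin 3 → ℂ) (i : Fin 3) : WN N w =
    gN N ((N + 1) * w i / Real.pi) * gN N ((N + 1) * w (i + 1) / Real.pi) *
      gN N ((N + 1) * w (i + 2) / Real.pi) := by
  rw [WN_three, prod_rot (fun j => gN N ((N + 1) * w j / Real.pi)) i]

theorem cx_sum {J : Type} {α x : J → Fin 3 → ℝ} {t : J} (h1 : ∑ i, α t i = Real.pi)
    (h2 : ∑ i, x t i = 0) (i : Fin 3) :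
    cx α x t i + cx α x t (i + 1) + cx α x t (i + 2) = Real.pi := by
  have e : ∀ F : Fin 3 → ℂ, F i + F (i + 1) + F (i + 2) = ∑ j, F j := by
    intro F
    rw [Fin.sum_univ_three]
    fin_cases i
    · rfl
    · show F 1 + F 2 + F 0 = F 0 + F 1 + F 2
      ring
    · show F 2 + F 0 + F 1 = F 0 + F 1 + F 2
      ring
  rw [e (fun j => cx α x t j)]
  unfold cx
  rw [Finset.sum_add_distrib, ← Finset.sum_mul, ← Complex.ofReal_sum, ← Complex.ofReal_sum, h1, h2]
  simp

theorem fib (hg : St_gN) {N : ℕ} (hN : 1 ≤ N) {κ : ℝ} (hs : StarN N κ)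
    {α x : R ⊕ Fin 3 → Fin 3 → ℝ} (hα : IsAng α) (hax : ∑ i, α (Sum.inr i) i = 2 * Real.pi)
    (hx : ∀ t, ∑ i, x t i = 0) (hxax : ∑ i : Fin 3, x (Sum.inr i) i = 0) :
    ∫ s : ℝ, GG N (cx α (s • ker₃ R + x)) = κ * GG N (cx (push α) (push x)) := by
  classical
  set a : Fin 3 → ℂ := fun j => cx α x (Sum.inr j) (j + 1) with ha
  set b : Fin 3 → ℂ := fun j => cx α x (Sum.inr j) (j + 2) with hb
  set c : Fin 3 → ℂ := fun j => cx α x (Sum.inr j) j with hc
  have hsum : ∀ j, c j + a j + b j = Real.pi := fun j => cx_sum (hα _).2 (hx _) j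
  have hcs : ∑ j, c j = 2 * Real.pi := by
    have : ∑ j, c j = ((∑ j : Fin 3, α (Sum.inr j) j : ℝ) : ℂ) +
        ((∑ j : Fin 3, x (Sum.inr j) j : ℝ) : ℂ) * Complex.I := by
      rw [hc]
      unfold cx
      rw [Finset.sum_add_distrib, ← Finset.sum_mul, ← Complex.ofReal_sum, ← Complex.ofReal_sum]
    rw [this, hax, hxax]
    push_cast
    ring
  have hab : ∑ j, (a j + b j) = Real.pi := by
    have h1 : ∀ j, a j + b j = Real.pi - c j := fun j => by rw [← hsum j]; ring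
    rw [Finset.sum_congr rfl fun j _ => h1 j, Finset.sum_sub_distrib, hcs]
    simp only [Finset.sum_const, Finset.card_univ, Fintype.card_fin, nsmul_eq_mul]
    push_cast
    ring
  have hre : ∀ (t : R ⊕ Fin 3) (i : Fin 3), (cx α x t i).re = α t i := by
    intro t i
    unfold cx
    simp
  have hare : ∀ j, 0 < (a j).re := fun j => by rw [ha]; simp only [hre]; exact (hα _).1 _
  have hbre : ∀ j, 0 < (b j).re := fun j => by rw [hb]; simp only [hre]; exact (hα _).1 _
  have hstar := hs a b hare hbre hab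
  -- the integrand
  have hI : ∀ s : ℝ, GG N (cx α (s • ker₃ R + x)) =
      ((∏ r : R, WN N (cx α x (Sum.inl r))) * ∏ j, gN N ((N + 1) * c j / Real.pi)) *
      ∏ j, (gN N ((N + 1) * (a j + s * Complex.I) / Real.pi) *
        gN N ((N + 1) * (b j - s * Complex.I) / Real.pi)) := by
    intro s
    unfold GG
    rw [Fintype.prod_sum_type, mul_assoc, ← Finset.prod_mul_distrib]
    congr 1
    · refine Finset.prod_congr rfl fun r _ => ?_
      congr 1
      funext i
      unfold cx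
      simp [ker₃]
    · refine Finset.prod_congr rfl fun j _ => ?_
      obtain ⟨h1, h2, h3⟩ := cx_ker α x s j
      rw [WN_rot N _ j, h1, h2, h3, mul_assoc]
  rw [MeasureTheory.integral_congr_ae (Filter.Eventually.of_forall hI),
    MeasureTheory.integral_const_mul, hstar]
  -- reflection
  have hrefl : ∀ j, gN N ((N + 1) * c j / Real.pi) * gN N ((N + 1) * (a j + b j) / Real.pi) = 1 := by
    intro j
    have hpi : (Real.pi : ℂ) ≠ 0 := by exact_mod_cast Real.pi_ne_zero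
    have h1 := (hg N hN).2.2.1 ((N + 1) * c j / Real.pi) (re_pos ((hα _).1 j) _)
      (re_lt (ang_lt_pi hα _ j) _)
    have h2 : (N : ℂ) + 1 - (N + 1) * c j / Real.pi = (N + 1) * (a j + b j) / Real.pi := by
      have h3 : a j + b j = Real.pi - c j := by rw [← hsum j]; ring
      rw [h3]
      field_simp
    rw [h2] at h1
    exact h1
  have hR : GG N (cx (push α) (push x)) = (∏ r : R, WN N (cx α x (Sum.inl r))) *
      ((gN N ((N + 1) * (a 2 + b 1) / Real.pi) * gN N ((N + 1) * (a 0 + b 2) / Real.pi) *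
        gN N ((N + 1) * (a 1 + b 0) / Real.pi)) *
      (gN N ((N + 1) * (a 1 + b 2) / Real.pi) * gN N ((N + 1) * (a 2 + b 0) / Real.pi) *
        gN N ((N + 1) * (a 0 + b 1) / Real.pi))) := by
    unfold GG
    rw [Fintype.prod_sum_type, Fin.prod_univ_two, WN_three, WN_three]
    have e : ∀ j, cx (push α) (push x) (Sum.inr 0) j = a (j + 2) + b (j + 1) ∧
        cx (push α) (push x) (Sum.inr 1) j = a (j + 1) + b (j + 2) := by
      intro j
      rw [ha, hb]
      unfold cx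
      simp only [push_zero, push_one]
      fin_cases j <;> simp <;> constructor <;> ring
    obtain ⟨p0, r0⟩ := e 0
    obtain ⟨p1, r1⟩ := e 1
    obtain ⟨p2, r2⟩ := e 2
    rw [p0, p1, p2, r0, r1, r2]
    rfl
  rw [hR, Fin.prod_univ_three (fun j => ∏ k, gN N ((N + 1) * (a j + b k) / Real.pi)),
    Fin.prod_univ_three (fun k => gN N ((N + 1) * (a 0 + b k) / Real.pi)),
    Fin.prod_univ_three (fun k => gN N ((N + 1) * (a 1 + b k) / Real.pi)),
    Fin.prod_univ_three (fun k => gN N ((N + 1) * (a 2 + b k) / Real.pi)),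
    Fin.prod_univ_three (fun j => gN N ((N + 1) * c j / Real.pi))]
  have q0 := hrefl 0
  have q1 := hrefl 1
  have q2 := hrefl 2
  set P := ∏ r : R, WN N (cx α x (Sum.inl r))
  calc _ = P * κ * ((gN N ((N + 1) * c 0 / Real.pi) * gN N ((N + 1) * (a 0 + b 0) / Real.pi)) *
        (gN N ((N + 1) * c 1 / Real.pi) * gN N ((N + 1) * (a 1 + b 1) / Real.pi)) *
        (gN N ((N + 1) * c 2 / Real.pi) * gN N ((N + 1) * (a 2 + b 2) / Real.pi))) *
        ((gN N ((N + 1) * (a 2 + b 1) / Real.pi) * gN N ((N + 1) * (a 0 + b 2) / Real.pi) *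
          gN N ((N + 1) * (a 1 + b 0) / Real.pi)) *
        (gN N ((N + 1) * (a 1 + b 2) / Real.pi) * gN N ((N + 1) * (a 2 + b 0) / Real.pi) *
          gN N ((N + 1) * (a 0 + b 1) / Real.pi))) := by ring
    _ = _ := by rw [q0, q1, q2]; ring

end PTH
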