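import Pool.Agent.PTH.Defs

/-! # Path theorem: linearity of the basic functionals, the tangent space `TA` -/

open scoped BigOperators

namespace PTH

variable {ι : Type}

theorem Tri.edgeSum_add [Fintype ι] (T : Tri ι) (e : ι × Sym2 (Fin 4)) (α β : ι → Fin 3 → ℝ) :
    T.edgeSum e (α + β) = T.edgeSum e α + T.edgeSum e β := by
  unfold Tri.edgeSum
  simp only [Pi.add_apply, Finset.sum_add_distrib]

theorem Tri.edgeSum_smul [Fintype ι] (T : Tri ι) (e : ι × Sym2 (Fin 4)) (c : ℝ)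
    (α : ι → Fin 3 → ℝ) : T.edgeSum e (c • α) = c * T.edgeSum e α := by
  unfold Tri.edgeSum
  simp only [Pi.smul_apply, smul_eq_mul, Finset.mul_sum]

/-- the tangent space of the angle structures -/
def Tri.TA [Fintype ι] (T : Tri ι) : Submodule ℝ (ι → Fin 3 → ℝ) where
  carrier := T.Sys 0
  add_mem' := by
    rintro α β ⟨h1, h2⟩ ⟨h3, h4⟩
    refine ⟨fun t => ?_, fun e he => ?_⟩
    · simp only [Pi.add_apply, Finset.sum_add_distrib, h1 t, h3 t, add_zero]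
    · rw [Tri.edgeSum_add, h2 e he, h4 e he]; ring
  zero_mem' := by
    refine ⟨fun t => by simp, fun e _ => ?_⟩
    unfold Tri.edgeSum; simp
  smul_mem' := by
    rintro c α ⟨h1, h2⟩
    refine ⟨fun t => ?_, fun e he => ?_⟩
    · simp only [Pi.smul_apply, smul_eq_mul, ← Finset.mul_sum, h1 t, mul_zero]
    · rw [Tri.edgeSum_smul, h2 e he]; ring

theorem Tri.mem_TA [Fintype ι] (T : Tri ι) (y : ι → Fin 3 → ℝ) : y ∈ T.TA ↔ y ∈ T.Sys 0 :=
  Iff.rfl

theorem Tri.sum_TA [Fintype ι] (T : Tri ι) {y : ι → Fin 3 → ℝ} (hy : y ∈ T.TA) (t : ι) :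
    ∑ i, y t i = 0 := hy.1 t

theorem Tri.Sys_add [Fintype ι] (T : Tri ι) {κ μ : ℝ} {α β : ι → Fin 3 → ℝ}
    (hα : α ∈ T.Sys κ) (hβ : β ∈ T.Sys μ) : α + β ∈ T.Sys (κ + μ) := by
  refine ⟨fun t => ?_, fun e he => ?_⟩
  · simp only [Pi.add_apply, Finset.sum_add_distrib, hα.1 t, hβ.1 t]
  · rw [Tri.edgeSum_add, hα.2 e he, hβ.2 e he]; ring

theorem Tri.Sys_smul [Fintype ι] (T : Tri ι) {κ : ℝ} (c : ℝ) {α : ι → Fin 3 → ℝ}
    (hα : α ∈ T.Sys κ) : c • α ∈ T.Sys (c * κ) := by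
  refine ⟨fun t => ?_, fun e he => ?_⟩
  · simp only [Pi.smul_apply, smul_eq_mul, ← Finset.mul_sum, hα.1 t]
  · rw [Tri.edgeSum_smul, hα.2 e he]; ring

theorem Tri.Sys_sub [Fintype ι] (T : Tri ι) {κ μ : ℝ} {α β : ι → Fin 3 → ℝ}
    (hα : α ∈ T.Sys κ) (hβ : β ∈ T.Sys μ) : α - β ∈ T.Sys (κ - μ) := by
  have h := T.Sys_add hα (T.Sys_smul (-1) hβ)
  have e1 : α + (-1 : ℝ) • β = α - β := by rw [neg_one_smul, sub_eq_add_neg]
  have e2 : κ + -1 * μ = κ - μ := by ring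
  rwa [e1, e2] at h

theorem Tri.sub_mem_TA [Fintype ι] (T : Tri ι) {κ : ℝ} {α β : ι → Fin 3 → ℝ}
    (hα : α ∈ T.Sys κ) (hβ : β ∈ T.Sys κ) : α - β ∈ T.TA := by
  have h := T.Sys_sub hα hβ
  rwa [sub_self] at h

theorem Tri.add_TA [Fintype ι] (T : Tri ι) {κ : ℝ} {α y : ι → Fin 3 → ℝ}
    (hα : α ∈ T.Sys κ) (hy : y ∈ T.TA) : α + y ∈ T.Sys κ := by
  have h := T.Sys_add hα hy
  rwa [add_zero] at h

/-- the angular holonomy as a linear map -/
noncomputable def Curve.holL {T : Tri ι} (c : Curve T) : (ι → Fin 3 → ℝ) →ₗ[ℝ] ℝ where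
  toFun := c.hol
  map_add' := by
    intro α β
    unfold Curve.hol
    simp only [Pi.add_apply, mul_add, Finset.sum_add_distrib]
  map_smul' := by
    intro r α
    unfold Curve.hol
    simp only [Pi.smul_apply, smul_eq_mul, RingHom.id_apply, Finset.mul_sum]
    refine Finset.sum_congr rfl fun k _ => ?_
    ring

@[simp] theorem Curve.holL_apply {T : Tri ι} (c : Curve T) (α : ι → Fin 3 → ℝ) :
    c.holL α = c.hol α := rfl

/-- `push` as a linear map -/
def pushL (R : Type) : (R ⊕ Fin 3 → Fin 3 → ℝ) →ₗ[ℝ] (R ⊕ Fin 2 → Fin 3 → ℝ) where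
  toFun := push
  map_add' := by
    intro α β
    funext t j
    rcases t with r | a
    · rfl
    · fin_cases a
      · show (α + β) _ _ + (α + β) _ _ = (α _ _ + α _ _) + (β _ _ + β _ _)
        simp only [Pi.add_apply]; ring
      · show (α + β) _ _ + (α + β) _ _ = (α _ _ + α _ _) + (β _ _ + β _ _)
        simp only [Pi.add_apply]; ring
  map_smul' := by
    intro c α
    funext t j
    rcases t with r | a
    · rfl
    · fin_cases a
      · show (c • α) _ _ + (c • α) _ _ = c • (α _ _ + α _ _)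
        simp only [Pi.smul_apply, smul_eq_mul]; ring
      · show (c • α) _ _ + (c • α) _ _ = c • (α _ _ + α _ _)
        simp only [Pi.smul_apply, smul_eq_mul]; ring

@[simp] theorem pushL_apply {R : Type} (α : R ⊕ Fin 3 → Fin 3 → ℝ) : pushL R α = push α := rfl

theorem push_inl {R : Type} (α : R ⊕ Fin 3 → Fin 3 → ℝ) (r : R) (j : Fin 3) :
    push α (Sum.inl r) j = α (Sum.inl r) j := rfl

theorem push_zero {R : Type} (α : R ⊕ Fin 3 → Fin 3 → ℝ) (j : Fin 3) :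
    push α (Sum.inr 0) j = α (Sum.inr (j + 1)) j + α (Sum.inr (j + 2)) j := rfl

theorem push_one {R : Type} (α : R ⊕ Fin 3 → Fin 3 → ℝ) (j : Fin 3) :
    push α (Sum.inr 1) j = α (Sum.inr (j + 1)) (j + 2) + α (Sum.inr (j + 2)) (j + 1) := rfl

end PTH
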