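import Pool.Agent.PTH.LobC
import Pool.Agent.PTH.Lin

/-! # Path theorem: the Lagrange multiplier -/

open scoped BigOperators
open MeasureTheory

namespace PTH

variable {ι : Type} [Fintype ι]

omit [Fintype ι] in
theorem ang_lt_pi' {α : ι → Fin 3 → ℝ} (h : ∀ t, ∑ i, α t i = Real.pi) (hp : ∀ t i, 0 < α t i)
    (t : ι) (i : Fin 3) : α t i < Real.pi := by
  have h2 := h t
  rw [Fin.sum_univ_three] at h2
  have p0 := hp t 0
  have p1 := hp t 1
  have p2 := hp t 2
  fin_cases i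
  · show α t 0 < _; linarith
  · show α t 1 < _; linarith
  · show α t 2 < _; linarith

/-- the derivative of the volume -/
noncomputable def dVol (α : ι → Fin 3 → ℝ) : (ι → Fin 3 → ℝ) →ₗ[ℝ] ℝ where
  toFun w := -∑ t, ∑ i, w t i * Real.log (2 * Real.sin (α t i))
  map_add' x y := by
    simp only [Pi.add_apply, add_mul, Finset.sum_add_distrib]; ring
  map_smul' c x := by
    simp only [Pi.smul_apply, smul_eq_mul, RingHom.id_apply, mul_assoc, ← Finset.mul_sum]
    ring

theorem hasDerivAt_Vol {α : ι → Fin 3 → ℝ} (h : ∀ t, ∑ i, α t i = Real.pi)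
    (hp : ∀ t i, 0 < α t i) (w : ι → Fin 3 → ℝ) :
    HasDerivAt (fun r : ℝ => Pool.Agent.PAN.Vol (α + r • w)) (dVol α w) 0 := by
  unfold Pool.Agent.PAN.Vol
  have h1 : ∀ t i, HasDerivAt (fun r : ℝ => Pool.Agent.PAN.Lob ((α + r • w) t i))
      (-Real.log (2 * Real.sin (α t i)) * w t i) 0 := by
    intro t i
    have h2 : HasDerivAt (fun r : ℝ => (α + r • w) t i) (w t i) 0 := by
      have h3 : (fun r : ℝ => (α + r • w) t i) = fun r : ℝ => α t i + r * w t i := by
        funext r; simp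
      rw [h3]
      have h4 := ((hasDerivAt_id (0 : ℝ)).mul_const (w t i)).const_add (α t i)
      simpa using h4
    have h5 : HasDerivAt Pool.Agent.PAN.Lob (-Real.log (2 * Real.sin (α t i)))
        ((α + (0 : ℝ) • w) t i) := by
      have := hasDerivAt_Lob (hp t i) (ang_lt_pi' h hp t i)
      simpa using this
    exact HasDerivAt.comp (h₂ := Pool.Agent.PAN.Lob) (0 : ℝ) h5 h2
  have h2 := HasDerivAt.fun_sum (u := (Finset.univ : Finset ι)) (fun t _ =>
    HasDerivAt.fun_sum (u := (Finset.univ : Finset (Fin 3))) (fun i _ => h1 t i))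
  refine h2.congr_deriv ?_
  show _ = -∑ t, ∑ i, w t i * Real.log (2 * Real.sin (α t i))
  rw [← Finset.sum_neg_distrib]
  refine Finset.sum_congr rfl fun t _ => ?_
  rw [← Finset.sum_neg_distrib]
  refine Finset.sum_congr rfl fun i _ => ?_
  ring

theorem eventually_pos {α : ι → Fin 3 → ℝ} (hp : ∀ t i, 0 < α t i) (w : ι → Fin 3 → ℝ) :
    ∀ᶠ r : ℝ in nhds 0, ∀ t i, 0 < (α + r • w) t i := by
  rw [Filter.eventually_all]
  intro t
  rw [Filter.eventually_all]
  intro i
  have hc : Continuous (fun r : ℝ => (α + r • w) t i) := by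
    have : (fun r : ℝ => (α + r • w) t i) = fun r : ℝ => α t i + r * w t i := by
      funext r; simp
    rw [this]; fun_prop
  have h0 : 0 < (α + (0 : ℝ) • w) t i := by simpa using hp t i
  exact hc.continuousAt.eventually (lt_mem_nhds h0)

theorem mult {T : Tri ι} {m : ℕ} (γ : Fin m → Curve T) {α₀ : ι → Fin 3 → ℝ}
    (h0 : α₀ ∈ T.Ang) (hs : ∀ k, (γ k).hol α₀ = 2 * Real.pi)
    (hmax : ∀ α, α ∈ T.Ang → (∀ k, (γ k).hol α = 2 * Real.pi) →
      Pool.Agent.PAN.Vol α ≤ Pool.Agent.PAN.Vol α₀) :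
    ∃ c : Fin m → ℝ, ∀ w ∈ T.TA, (∑ k, c k • (γ k).holL) w +
      ∑ t, ∑ i, w t i * Real.log (2 * Real.sin (α₀ t i)) = 0 := by
  have key : ∀ w ∈ T.TA, (∀ k, (γ k).hol w = 0) → dVol α₀ w = 0 := by
    intro w hw hk
    have hd := hasDerivAt_Vol h0.1.1 h0.2 w
    have hloc : IsLocalMax (fun r : ℝ => Pool.Agent.PAN.Vol (α₀ + r • w)) 0 := by
      filter_upwards [eventually_pos h0.2 w] with r hr
      have e : α₀ + (0 : ℝ) • w = α₀ := by simp
      rw [e]
      refine hmax _ ⟨T.add_TA h0.1 (T.TA.smul_mem r hw), hr⟩ fun k => ?_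
      rw [← Curve.holL_apply, map_add, map_smul, Curve.holL_apply, Curve.holL_apply, hk k, hs k]
      simp
    exact hloc.hasDerivAt_eq_zero hd
  have h1 : (dVol α₀).domRestrict T.TA ∈
      Submodule.span ℝ (Set.range fun k => ((γ k).holL).domRestrict T.TA) := by
    apply mem_span_of_iInf_ker_le_ker
    intro w hw
    rw [Submodule.mem_iInf] at hw
    rw [LinearMap.mem_ker]
    exact key w.1 w.2 fun k => LinearMap.mem_ker.1 (hw k)
  obtain ⟨c, hc⟩ := (Submodule.mem_span_range_iff_exists_fun ℝ).1 h1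
  refine ⟨c, fun w hw => ?_⟩
  have h2 := LinearMap.congr_fun hc ⟨w, hw⟩
  have h3 : (∑ k, c k • (γ k).holL) w = dVol α₀ w := by
    rw [LinearMap.sum_apply] at h2 ⊢
    exact h2
  rw [h3]
  show -(∑ t, ∑ i, w t i * Real.log (2 * Real.sin (α₀ t i))) + _ = 0
  ring

end PTH
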