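import Pool.Agent.PTH.Chain
import Pool.Agent.PTH.Mult

/-! # Path theorem: the final argument -/

open scoped BigOperators
open Pool.Agent.PAN

namespace PTH

theorem Vol_eq {ι : Type} [Fintype ι] (α : ι → Fin 3 → ℝ) :
    PTH.Vol α = Pool.Agent.PAN.Vol α := rfl

theorem exp_compare {A B c₁ C : ℝ} {n : ℕ} (hc₁ : 0 < c₁) (hC : 0 < C)
    (h : ∀ ε : ℝ, 0 < ε → ∃ N₀ : ℕ, ∀ N : ℕ, N₀ ≤ N → c₁ / (N : ℝ) ^ n *
      Real.exp ((N / Real.pi) * A) ≤ Real.exp (ε * N) * (C * Real.exp (N / Real.pi * B))) :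
    A ≤ B := by
  by_contra hAB
  push Not at hAB
  have hpi := Real.pi_pos
  set a := (A - B) / (2 * Real.pi) with ha
  have hapos : 0 < a := by
    rw [ha]
    exact div_pos (by linarith) (by positivity)
  obtain ⟨N₀, hN₀⟩ := h a hapos
  have ht := (Real.tendsto_pow_mul_exp_neg_atTop_nhds_zero n)
  have ht' : Filter.Tendsto (fun N : ℕ => (a * N) ^ n * Real.exp (-(a * N))) Filter.atTop
      (nhds 0) := by
    refine ht.comp ?_
    exact Filter.Tendsto.const_mul_atTop hapos tendsto_natCast_atTop_atTop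
  have hsmall : 0 < c₁ * a ^ n / C := by positivity
  obtain ⟨N, hN⟩ := ((ht'.eventually (gt_mem_nhds hsmall)).and
    ((Filter.eventually_ge_atTop (max N₀ 1)))).exists
  obtain ⟨h1, h2⟩ := hN
  have hNa := (le_max_left N₀ 1).trans h2
  have hNb : (1 : ℝ) ≤ N := by exact_mod_cast (le_max_right N₀ 1).trans h2
  have h3 := hN₀ N hNa
  have hNpos : (0 : ℝ) < N := by linarith
  have hpow : (0 : ℝ) < (N : ℝ) ^ n := by positivity
  -- rewrite
  have e1 : Real.exp ((N / Real.pi) * A) = Real.exp (a * N) * (Real.exp (a * N) *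
      Real.exp (N / Real.pi * B)) := by
    rw [← Real.exp_add, ← Real.exp_add]
    congr 1
    rw [ha]
    field_simp
    ring
  rw [e1] at h3
  have hE := Real.exp_pos (a * N)
  have hE2 := Real.exp_pos (N / Real.pi * B)
  have h4 : c₁ / (N : ℝ) ^ n * Real.exp (a * N) ≤ C := by
    have h5 : (c₁ / (N : ℝ) ^ n * Real.exp (a * N)) *
        (Real.exp (a * N) * Real.exp (N / Real.pi * B)) ≤
        C * (Real.exp (a * N) * Real.exp (N / Real.pi * B)) := by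
      calc _ = c₁ / (N : ℝ) ^ n * (Real.exp (a * N) * (Real.exp (a * N) *
          Real.exp (N / Real.pi * B))) := by ring
        _ ≤ _ := h3
        _ = _ := by ring
    exact le_of_mul_le_mul_right h5 (by positivity)
  have h6 : c₁ * Real.exp (a * N) ≤ C * (N : ℝ) ^ n := by
    have := mul_le_mul_of_nonneg_right h4 hpow.le
    calc c₁ * Real.exp (a * N) = c₁ / (N : ℝ) ^ n * Real.exp (a * N) * (N : ℝ) ^ n := by
          field_simp
      _ ≤ _ := this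
  have h7 : c₁ * a ^ n / C ≤ (a * N) ^ n * Real.exp (-(a * N)) := by
    rw [div_le_iff₀ hC, mul_pow, Real.exp_neg]
    have h8 : a ^ n * (N : ℝ) ^ n * (Real.exp (a * N))⁻¹ * C =
        a ^ n * (C * (N : ℝ) ^ n) / Real.exp (a * N) := by
      rw [div_eq_mul_inv]; ring
    rw [h8, le_div_iff₀ hE]
    have : 0 < a ^ n := by positivity
    nlinarith
  exact absurd h1 (not_lt.2 h7)

/-- **The path theorem**, from the analytic statements of the block `PAN`. -/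
theorem path_main (hg : St_gN) (hZ2 : St_Z2) (hCS : St_CS) (hJ3 : St_J3) (hJ4 : St_J4) {m : ℕ}
    {X Y : Cusped m} (h : Relation.ReflTransGen PathStep X Y) {α₀ : X.ι → Fin 3 → ℝ}
    (h0 : α₀ ∈ X.AngS) (hmax : ∀ α ∈ X.AngS, PTH.Vol α ≤ PTH.Vol α₀) :
    ∃ c : Fin m → ℝ, ∀ β ∈ Y.T.Ang,
      PTH.Vol β ≤ PTH.Vol α₀ + ∑ k, c k * ((Y.γ k).hol β - 2 * Real.pi) := by
  obtain ⟨c, hc⟩ := mult X.γ h0.1 h0.2 (fun α h1 h2 => hmax α ⟨h1, h2⟩)
  refine ⟨c, fun β hβ => ?_⟩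
  obtain ⟨d, L, hL⟩ := exists_par X.T.TA
  obtain ⟨d', L', hL'⟩ := exists_par Y.T.TA
  have hz : ∀ y t, ∑ i, L y t i = 0 := fun y t => X.T.sum_TA (hL.mem y) t
  have hz' : ∀ y t, ∑ i, L' y t i = 0 := fun y t => Y.T.sum_TA (hL'.mem y) t
  obtain ⟨c₁, n, N₁, hc₁, hlow⟩ := hJ3 X.ι d L hL.inj hz α₀ (Tri.Ang.isAng h0.1) (X.ell c)
    (fun y => hc (L y) (hL.mem y))
  obtain ⟨δ, hδ, hd⟩ := exists_delta (fun t i => hβ.2 t i)
  obtain ⟨C, N₂, hC, hN₂, hup⟩ := integrable_ZI hg hZ2 hL'.inj hz' hδ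
  have hcomp := comp_path hg hZ2 hCS hJ4 (c := c) h d d' L L' hL hL' α₀ h0.1 β hβ
  have hAB : X.ell c α₀ - Pool.Agent.PAN.Vol α₀ ≤ Y.ell c β - Pool.Agent.PAN.Vol β := by
    refine exp_compare (n := n) hc₁ hC fun ε hε => ?_
    obtain ⟨N₃, hN₃⟩ := hcomp ε hε
    refine ⟨max N₁ (max N₂ N₃), fun N hN => ?_⟩
    have a1 := (le_max_left _ _).trans hN
    have a2 := ((le_max_left _ _).trans (le_max_right _ _)).trans hN
    have a3 := ((le_max_right _ _).trans (le_max_right _ _)).trans hN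
    have b1 := hlow N a1
    have b2 := (hup N a2 (Y.ell c) β hd hβ.1.1).2
    have b3 := hN₃ N a3
    calc _ ≤ ‖ZZ N L (X.ell c) α₀‖ := b1
      _ ≤ Real.exp (ε * N) * ‖ZZ N L' (Y.ell c) β‖ := b3
      _ ≤ _ := mul_le_mul_of_nonneg_left b2 (Real.exp_pos _).le
  have e1 : X.ell c α₀ = ∑ k, c k * (2 * Real.pi) := by
    rw [Cusped.ell_apply]
    exact Finset.sum_congr rfl fun k _ => by rw [h0.2 k]
  have e2 : ∑ k, c k * ((Y.γ k).hol β - 2 * Real.pi) = Y.ell c β - ∑ k, c k * (2 * Real.pi) := by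
    rw [Cusped.ell_apply, ← Finset.sum_sub_distrib]
    exact Finset.sum_congr rfl fun k _ => by ring
  rw [e2, Vol_eq, Vol_eq]
  rw [e1] at hAB
  linarith

end PTH
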