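import Pool.Agent.PTH.Cons
import Pool.Agent.PTH.LobC

/-! # Path theorem: the state integral does not depend on the angle structure -/

open scoped BigOperators
open Pool.Agent.PAN

namespace PTH

variable {J : Type} [Fintype J]

/-- the holomorphic extension of the integrand along a line -/
noncomputable def hh (N : ℕ) (ℓ : (J → Fin 3 → ℝ) →ₗ[ℝ] ℝ) (α v x : J → Fin 3 → ℝ) (z : ℂ) : ℂ :=
  GG N (fun t i => (α t i : ℂ) + z * (v t i : ℂ) + (x t i : ℂ) * Complex.I) *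
    Complex.exp (((N / Real.pi : ℝ) : ℂ) * ((ℓ α : ℂ) + z * (ℓ v : ℂ) + (ℓ x : ℂ) * Complex.I))

theorem hh_eq (N : ℕ) (ℓ : (J → Fin 3 → ℝ) →ₗ[ℝ] ℝ) (α v x : J → Fin 3 → ℝ) (r s : ℝ) :
    hh N ℓ α v x ((r : ℂ) + (s : ℂ) * Complex.I) = ZI N ℓ (α + r • v) (s • v + x) := by
  unfold hh ZI
  congr 1
  · congr 1
    funext t i
    unfold cx
    simp only [Pi.add_apply, Pi.smul_apply, smul_eq_mul]
    push_cast
    ring
  · congr 2
    rw [map_add, map_smul, map_add, map_smul, smul_eq_mul, smul_eq_mul]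
    push_cast
    ring

theorem hh_diff (hg : St_gN) {N : ℕ} (hN : 1 ≤ N) (ℓ : (J → Fin 3 → ℝ) →ₗ[ℝ] ℝ)
    (α v x : J → Fin 3 → ℝ) (z : ℂ) (hz : IsAng (α + z.re • v)) :
    DifferentiableAt ℂ (hh N ℓ α v x) z := by
  unfold hh
  refine DifferentiableAt.mul ?_ ?_
  · unfold GG WN
    refine DifferentiableAt.fun_finsetProd fun t _ => DifferentiableAt.fun_finsetProd fun i _ => ?_
    have h1 : DifferentiableAt ℂ (gN N) (((N : ℂ) + 1) *
        ((α t i : ℂ) + z * (v t i : ℂ) + (x t i : ℂ) * Complex.I) / (Real.pi : ℂ)) := by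
      have e : ((N : ℂ) + 1) * ((α t i : ℂ) + z * (v t i : ℂ) + (x t i : ℂ) * Complex.I) /
          (Real.pi : ℂ) = ((N : ℂ) + 1) * ((((α + z.re • v) t i : ℝ) : ℂ) +
            ((x t i + z.im * v t i : ℝ) : ℂ) * Complex.I) / (Real.pi : ℂ) := by
        congr 2
        simp only [Pi.add_apply, Pi.smul_apply, smul_eq_mul]
        push_cast
        nth_rewrite 1 [← Complex.re_add_im z]
        ring
      rw [e]
      exact (hg N hN).1 _ (re_pos ((hz t).1 i) _) (re_lt (ang_lt_pi hz t i) _)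
    have h2 : DifferentiableAt ℂ (fun z : ℂ => ((N : ℂ) + 1) *
        ((α t i : ℂ) + z * (v t i : ℂ) + (x t i : ℂ) * Complex.I) / (Real.pi : ℂ)) z := by
      fun_prop
    exact DifferentiableAt.comp (g := gN N) z h1 h2
  · fun_prop

omit [Fintype J] in
theorem line_ang {α β : J → Fin 3 → ℝ} (hα : IsAng α) (hβ : IsAng β) {δ : ℝ}
    (h1 : ∀ t i, δ ≤ α t i) (h2 : ∀ t i, δ ≤ β t i) {r : ℝ} (h3 : 0 ≤ r) (h4 : r ≤ 1) :
    (∀ t i, δ ≤ (α + r • (β - α)) t i) ∧ ∀ t, ∑ i, (α + r • (β - α)) t i = Real.pi := by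
  constructor
  · intro t i
    simp only [Pi.add_apply, Pi.smul_apply, Pi.sub_apply, smul_eq_mul]
    nlinarith [h1 t i, h2 t i]
  · intro t
    simp only [Pi.add_apply, Pi.smul_apply, Pi.sub_apply, smul_eq_mul, Finset.sum_add_distrib,
      ← Finset.mul_sum, Finset.sum_sub_distrib, (hα t).2, (hβ t).2]
    ring

theorem cont_Vol_line (α v : J → Fin 3 → ℝ) :
    Continuous (fun r : ℝ => Pool.Agent.PAN.Vol (α + r • v)) := by
  unfold Pool.Agent.PAN.Vol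
  refine continuous_finsetSum _ fun t _ => continuous_finsetSum _ fun i _ => ?_
  refine cont_Lob.comp ?_
  have : (fun r : ℝ => (α + r • v) t i) = fun r : ℝ => α t i + r * v t i := by
    funext r; simp
  rw [this]; fun_prop

/-- **Independence of the angle structure.** -/
theorem ind (hg : St_gN) (hZ2 : St_Z2) (hCS : St_CS) {V : Submodule ℝ (J → Fin 3 → ℝ)}
    (hV : ∀ x ∈ V, ∀ t, ∑ i, x t i = 0) {α β : J → Fin 3 → ℝ} (hα : IsAng α) (hβ : IsAng β)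
    (hv : β - α ∈ V) {d : ℕ} {L : (Fin d → ℝ) →ₗ[ℝ] (J → Fin 3 → ℝ)} (hL : IsPar L V) :
    ∃ N₀ : ℕ, 1 ≤ N₀ ∧ ∀ N : ℕ, N₀ ≤ N → ∀ ℓ : (J → Fin 3 → ℝ) →ₗ[ℝ] ℝ,
      ZZ N L ℓ α = ZZ N L ℓ β := by
  by_cases hv0 : β - α = 0
  · rw [sub_eq_zero.1 hv0]
    exact ⟨1, le_refl _, fun _ _ _ => rfl⟩
  obtain ⟨d', L₀, hL₀V, hL'⟩ := exists_par_cons V hv hv0
  obtain ⟨c₁, hc₁, hpar⟩ := ZZ_par hL' hL
  obtain ⟨δ₁, hδ₁, h1⟩ := exists_delta (fun t i => (hα t).1 i)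
  obtain ⟨δ₂, hδ₂, h2⟩ := exists_delta (fun t i => (hβ t).1 i)
  have hδ : 0 < min δ₁ δ₂ := lt_min hδ₁ hδ₂
  have h1' : ∀ t i, min δ₁ δ₂ ≤ α t i := fun t i => (min_le_left _ _).trans (h1 t i)
  have h2' : ∀ t i, min δ₁ δ₂ ≤ β t i := fun t i => (min_le_right _ _).trans (h2 t i)
  have hz0 : ∀ y t, ∑ i, consL (β - α) L₀ y t i = 0 := fun y t => hV _ (hL'.mem y) t
  obtain ⟨c, C, N₁, hc, hC, hN₁, hb⟩ := ZI_bound hZ2 hL'.inj hz0 hδ
  obtain ⟨C₂, N₂, hC₂, hN₂, hint⟩ := integrable_ZI hg hZ2 hL'.inj hz0 hδ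
  refine ⟨max N₁ N₂, hN₁.trans (le_max_left _ _), fun N hN ℓ => ?_⟩
  have hNa := (le_max_left N₁ N₂).trans hN
  have hNb := (le_max_right N₁ N₂).trans hN
  rw [hpar, hpar]
  congr 1
  unfold ZZ
  rw [integral_cons (hint N hNb ℓ α h1' (fun t => (hα t).2)).1,
    integral_cons (hint N hNb ℓ β h2' (fun t => (hβ t).2)).1]
  refine MeasureTheory.integral_congr_ae (Filter.Eventually.of_forall fun y => ?_)
  simp only [consL_cons]
  -- bound on the exponential factor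
  obtain ⟨M, hM⟩ := (isCompact_Icc (a := (0 : ℝ)) (b := 1)).exists_bound_of_continuousOn
    (f := fun r : ℝ => Real.exp (N / Real.pi * (ℓ (α + r • (β - α)) -
      Pool.Agent.PAN.Vol (α + r • (β - α))))) (by
    refine Continuous.continuousOn ?_
    refine Real.continuous_exp.comp (continuous_const.mul (Continuous.sub ?_
      (cont_Vol_line α (β - α))))
    have : (fun r : ℝ => ℓ (α + r • (β - α))) = fun r : ℝ => ℓ α + r * ℓ (β - α) := by
      funext r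
      rw [map_add, map_smul, smul_eq_mul]
    rw [this]; fun_prop)
  have hcs := hCS 0 1 c (C * M) (hh N ℓ α (β - α) (L₀ y)) zero_le_one hc (by
    intro z hz1 hz2
    have hl := line_ang hα hβ h1' h2' hz1 hz2
    refine ⟨hh_diff hg (hN₁.trans hNa) ℓ _ _ _ _ (fun t => ⟨fun i => hδ.trans_le (hl.1 t i),
      hl.2 t⟩), ?_⟩
    have e : hh N ℓ α (β - α) (L₀ y) z =
        ZI N ℓ (α + z.re • (β - α)) (z.im • (β - α) + L₀ y) := by
      rw [← hh_eq, Complex.re_add_im]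
    rw [e, ← consL_cons]
    refine (hb N hNa ℓ _ hl.1 hl.2 _).trans ?_
    have hM' := hM z.re ⟨hz1, hz2⟩
    rw [Real.norm_eq_abs, abs_of_pos (Real.exp_pos _)] at hM'
    have hn : |z.im| ≤ ‖(Fin.cons z.im y : Fin (d' + 1) → ℝ)‖ := by
      have := norm_le_pi_norm (Fin.cons z.im y : Fin (d' + 1) → ℝ) 0
      rwa [Fin.cons_zero, Real.norm_eq_abs] at this
    have hM0 : 0 ≤ M := (Real.exp_pos _).le.trans hM'
    refine mul_le_mul (mul_le_mul_of_nonneg_left hM' hC.le) (Real.exp_le_exp.2 ?_)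
      (Real.exp_pos _).le (by positivity)
    nlinarith)
  have e0 : ∀ s : ℝ, hh N ℓ α (β - α) (L₀ y) (((0 : ℝ) : ℂ) + (s : ℂ) * Complex.I) =
      ZI N ℓ α (s • (β - α) + L₀ y) := by
    intro s
    rw [hh_eq, zero_smul, add_zero]
  have e1 : ∀ s : ℝ, hh N ℓ α (β - α) (L₀ y) (((1 : ℝ) : ℂ) + (s : ℂ) * Complex.I) =
      ZI N ℓ β (s • (β - α) + L₀ y) := by
    intro s
    rw [hh_eq, one_smul, add_sub_cancel]
  simp only [e0, e1] at hcs
  exact hcs

end PTH
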