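import Pool.Agent.PTH.Dom

/-! # Path theorem: integrability and the upper bound -/

open scoped BigOperators
open Pool.Agent.PAN

namespace PTH

variable {J : Type} [Fintype J]

theorem integrable_exp_neg (d : ℕ) {c : ℝ} (hc : 0 < c) :
    MeasureTheory.Integrable (fun y : Fin d → ℝ => Real.exp (-c * ‖y‖)) := by
  have h1 := integrable_one_add_norm (E := Fin d → ℝ)
    (μ := (MeasureTheory.volume : MeasureTheory.Measure (Fin d → ℝ))) (r := (d + 1 : ℕ)) (by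
      simp)
  refine (h1.const_mul ((d + 1).factorial / c ^ (d + 1) * Real.exp c)).mono' ?_ ?_
  · exact (Real.continuous_exp.comp (continuous_const.mul continuous_norm)).aestronglyMeasurable
  · refine Filter.Eventually.of_forall fun y => ?_
    rw [Real.norm_eq_abs, abs_of_pos (Real.exp_pos _)]
    have h2 : (0 : ℝ) < 1 + ‖y‖ := by positivity
    have h3 := Real.pow_div_factorial_le_exp (c * (1 + ‖y‖)) (by positivity) (d + 1)
    rw [Real.rpow_neg h2.le, Real.rpow_natCast, mul_pow] at *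
    have h4 : (0 : ℝ) < (d + 1).factorial := by positivity
    rw [div_le_iff₀ h4] at h3
    have h5 : Real.exp (c * (1 + ‖y‖)) = Real.exp c * Real.exp (c * ‖y‖) := by
      rw [← Real.exp_add]; ring_nf
    rw [h5] at h3
    have h6 : Real.exp (-c * ‖y‖) = (Real.exp (c * ‖y‖))⁻¹ := by
      rw [← Real.exp_neg]; ring_nf
    rw [h6, ← div_eq_mul_inv (_ * _) _]
    rw [inv_le_comm₀ (Real.exp_pos _) (by positivity), inv_div]
    rw [div_le_iff₀ (by positivity)]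
    calc (1 + ‖y‖) ^ (d + 1) = (c ^ (d + 1) * (1 + ‖y‖) ^ (d + 1)) / c ^ (d + 1) := by
          field_simp
      _ ≤ (Real.exp c * Real.exp (c * ‖y‖) * (d + 1).factorial) / c ^ (d + 1) := by
          gcongr
      _ = _ := by ring

omit [Fintype J] in
/-- a positive lower bound for the angles -/
theorem exists_delta [Finite J] {α : J → Fin 3 → ℝ} (hp : ∀ t i, 0 < α t i) :
    ∃ δ : ℝ, 0 < δ ∧ ∀ t i, δ ≤ α t i := by
  obtain ⟨δ, h1, h2⟩ : ∃ δ : ℝ, 0 < δ ∧ ∀ x : J × Fin 3, δ ≤ α x.1 x.2 := by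
    rcases isEmpty_or_nonempty (J × Fin 3) with h | h
    · exact ⟨1, one_pos, fun x => h.elim x⟩
    · obtain ⟨x, hx⟩ := Finite.exists_min (fun x : J × Fin 3 => α x.1 x.2)
      exact ⟨α x.1 x.2, hp _ _, hx⟩
  exact ⟨δ, h1, fun t i => h2 (t, i)⟩

/-- **Integrability and upper bound.** -/
theorem integrable_ZI (hg : St_gN) (hZ2 : St_Z2) {d : ℕ}
    {L : (Fin d → ℝ) →ₗ[ℝ] (J → Fin 3 → ℝ)}
    (hL : Function.Injective L) (h0 : ∀ y t, ∑ i, L y t i = 0) {δ : ℝ} (hδ : 0 < δ) :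
    ∃ (C : ℝ) (N₀ : ℕ), 0 < C ∧ 1 ≤ N₀ ∧ ∀ N : ℕ, N₀ ≤ N →
      ∀ (ℓ : (J → Fin 3 → ℝ) →ₗ[ℝ] ℝ) (α : J → Fin 3 → ℝ), (∀ t i, δ ≤ α t i) →
      (∀ t, ∑ i, α t i = Real.pi) →
      MeasureTheory.Integrable (fun y => ZI N ℓ α (L y)) ∧
      ‖ZZ N L ℓ α‖ ≤ C * Real.exp (N / Real.pi * (ℓ α - Pool.Agent.PAN.Vol α)) := by
  obtain ⟨c, C, N₀, hc, hC, hN₀, hb⟩ := ZI_bound hZ2 hL h0 hδ
  have hint := integrable_exp_neg d hc
  have hpos : 0 ≤ ∫ y : Fin d → ℝ, Real.exp (-c * ‖y‖) :=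
    MeasureTheory.integral_nonneg fun y => (Real.exp_pos _).le
  refine ⟨C * ((∫ y : Fin d → ℝ, Real.exp (-c * ‖y‖)) + 1), N₀, by positivity, hN₀,
    fun N hN ℓ α hα hs => ⟨?_, ?_⟩⟩
  · refine (hint.const_mul (C * Real.exp (N / Real.pi * (ℓ α - Pool.Agent.PAN.Vol α)))).mono' ?_
      (Filter.Eventually.of_forall fun y => hb N hN ℓ α hα hs y)
    exact ((cont_ZI hg (hN₀.trans hN) ℓ (fun t => ⟨fun i => hδ.trans_le (hα t i), hs t⟩)).comp
      L.continuous_of_finiteDimensional).aestronglyMeasurable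
  · unfold ZZ
    refine (MeasureTheory.norm_integral_le_of_norm_le
      (hint.const_mul (C * Real.exp (N / Real.pi * (ℓ α - Pool.Agent.PAN.Vol α))))
      (Filter.Eventually.of_forall fun y => hb N hN ℓ α hα hs y)).trans ?_
    rw [MeasureTheory.integral_const_mul]
    have h1 := Real.exp_pos (N / Real.pi * (ℓ α - Pool.Agent.PAN.Vol α))
    have h2 : 0 ≤ C * Real.exp (N / Real.pi * (ℓ α - Pool.Agent.PAN.Vol α)) := by positivity
    nlinarith

end PTH
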