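import Pool.Agent.PTH.Lin

/-! # Path theorem, combinatorics of the 2-3 move: outer edges

The bipyramid has the vertices `Fin 5`: `0 = N`, `1,2,3` equatorial, `4 = S`. -/

open scoped BigOperators

namespace PTH

/-- edges of the other tetrahedra, and pairs of vertices of the bipyramid -/
abbrev OE (R : Type) := (R × Sym2 (Fin 4)) ⊕ Sym2 (Fin 5)

/-- vertices of the bipyramid, before the move -/
def m₂ : Fin 2 → Fin 4 → Fin 5
  | 0, v => v.castSucc
  | 1, v => if v = 0 then 4 else v.castSucc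

/-- vertices of the bipyramid, after the move -/
def m₃ (i : Fin 3) (v : Fin 4) : Fin 5 := if v = i.succ then 4 else v.castSucc

/-- names of the model edges, before the move -/
def φ₂ {R : Type} : (R ⊕ Fin 2) × Sym2 (Fin 4) → OE R
  | (Sum.inl r, s) => Sum.inl (r, s)
  | (Sum.inr a, s) => Sum.inr (s.map (m₂ a))

/-- names of the model edges, after the move -/
def φ₃ {R : Type} : (R ⊕ Fin 3) × Sym2 (Fin 4) → OE R
  | (Sum.inl r, s) => Sum.inl (r, s)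
  | (Sum.inr a, s) => Sum.inr (s.map (m₃ a))

/-- gluing step between outer edges -/
inductive OStep {R : Type} (T : Tri (R ⊕ Fin 2)) : OE R → OE R → Prop
  | mk (o o' : Outer R) (h1 : T.adj o.t₂ o.f₂ = o'.t₂) (h2 : T.gl o.t₂ o.f₂ o.f₂ = o'.f₂)
      (s : Sym2 (Fin 4)) (hs : o.f₂ ∉ s) :
      OStep T (φ₂ (o.t₂, s)) (φ₂ (o'.t₂, s.map (T.gl o.t₂ o.f₂)))

def OSame {R : Type} (T : Tri (R ⊕ Fin 2)) (a b : OE R) : Prop := Relation.EqvGen (OStep T) a b

variable {R : Type}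

/-- every face is either the inner face or an outer face -/
theorem outer_or (t : R ⊕ Fin 2) (f : Fin 4) :
    (∃ a : Fin 2, t = Sum.inr a ∧ f = 0) ∨ ∃ o : Outer R, o.t₂ = t ∧ o.f₂ = f := by
  rcases t with r | a
  · exact Or.inr ⟨Outer.rest r f, rfl, rfl⟩
  · rcases Fin.eq_zero_or_eq_succ f with h | ⟨i, h⟩
    · exact Or.inl ⟨a, rfl, h⟩
    · right
      fin_cases a
      · exact ⟨Outer.top i, rfl, h.symm⟩
      · exact ⟨Outer.bot i, rfl, h.symm⟩

theorem outer_or' (t : R ⊕ Fin 3) (f : Fin 4) :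
    (∃ i j : Fin 3, i ≠ j ∧ t = Sum.inr i ∧ f = j.succ) ∨ ∃ o : Outer R, o.t₃ = t ∧ o.f₃ = f := by
  rcases t with r | a
  · exact Or.inr ⟨Outer.rest r f, rfl, rfl⟩
  · rcases Fin.eq_zero_or_eq_succ f with h | ⟨i, h⟩
    · exact Or.inr ⟨Outer.bot a, rfl, h.symm⟩
    · by_cases hi : a = i
      · exact Or.inr ⟨Outer.top a, rfl, by rw [h, ← hi]; rfl⟩
      · exact Or.inl ⟨a, i, hi, rfl, h⟩

/-- the second half of the inner gluing before the move -/
theorem IsMove.adj_in₁ {T : Tri (R ⊕ Fin 2)} {T' : Tri (R ⊕ Fin 3)} (h : IsMove T T') :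
    T.adj (Sum.inr 1) 0 = Sum.inr 0 ∧ T.gl (Sum.inr 1) 0 = 1 := by
  have h1 := T.adj_adj (Sum.inr 0) 0
  have h2 := T.gl_gl (Sum.inr 0) 0
  rw [h.adj_in, h.gl_in] at h1 h2
  exact ⟨h1, by rw [show (1 : Equiv.Perm (Fin 4)) 0 = 0 from rfl] at h2; rw [h2]; rfl⟩

/-- the face glued to an outer face is an outer face -/
theorem IsMove.outer_adj {T : Tri (R ⊕ Fin 2)} {T' : Tri (R ⊕ Fin 3)} (h : IsMove T T')
    (o : Outer R) :
    ∃ o' : Outer R, T.adj o.t₂ o.f₂ = o'.t₂ ∧ T.gl o.t₂ o.f₂ o.f₂ = o'.f₂ := by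
  rcases outer_or (T.adj o.t₂ o.f₂) (T.gl o.t₂ o.f₂ o.f₂) with ⟨a, h1, h2⟩ | ⟨o', h1, h2⟩
  · exfalso
    have h3 := T.adj_adj o.t₂ o.f₂
    have h4 := T.gl_gl o.t₂ o.f₂
    rw [h1, h2] at h3 h4
    have h5 : T.adj (Sum.inr a) 0 = Sum.inr (1 - a) ∧ T.gl (Sum.inr a) 0 = 1 := by
      fin_cases a
      · exact ⟨h.adj_in, h.gl_in⟩
      · exact h.adj_in₁
    rw [h5.1] at h3
    rw [h5.2] at h4
    have h6 : T.gl o.t₂ o.f₂ = 1 := by
      rw [← inv_inv (T.gl o.t₂ o.f₂), ← h4]; rfl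
    have h7 : o.f₂ = 0 := by rw [h6] at h2; exact h2
    cases o with
    | rest r f => simp [Outer.t₂] at h3
    | top i => exact absurd h7 (Fin.succ_ne_zero i)
    | bot i => exact absurd h7 (Fin.succ_ne_zero i)
  · exact ⟨o', h1.symm, h2.symm⟩

theorem dec_top : ∀ (i : Fin 3) (s : Sym2 (Fin 4)), i.succ ∉ s →
    s.map (m₃ i) = s.map (m₂ 0) := by decide

theorem dec_bot : ∀ (i : Fin 3) (s : Sym2 (Fin 4)), i.succ ∉ s →
    (s.map (Equiv.swap 0 i.succ)).map (m₃ i) = s.map (m₂ 1) := by decide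

theorem dec_fib₂ : ∀ (a : Fin 2) (s s' : Sym2 (Fin 4)), s.map (m₂ a) = s'.map (m₂ a) → s = s' := by
  decide

theorem dec_fib₂' : ∀ (s s' : Sym2 (Fin 4)), s.map (m₂ 0) = s'.map (m₂ 1) → s = s' ∧ 0 ∉ s := by
  decide

theorem dec_fib₃ : ∀ (a : Fin 3) (s s' : Sym2 (Fin 4)), s.map (m₃ a) = s'.map (m₃ a) → s = s' := by
  decide

theorem dec_fib₃' : ∀ (i j : Fin 3), i ≠ j → ∀ (s s' : Sym2 (Fin 4)),
    s.map (m₃ i) = s'.map (m₃ j) → j.succ ∉ s ∧ s' = s.map (Equiv.swap i.succ j.succ) := by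
  decide

theorem dec_two : ∀ (a b : Fin 2), a ≠ b → (a = 0 ∧ b = 1) ∨ (a = 1 ∧ b = 0) := by decide

/-- model edges before the move with the same name are identified -/
theorem fib₂ {T : Tri (R ⊕ Fin 2)} {T' : Tri (R ⊕ Fin 3)} (h : IsMove T T')
    {x y : (R ⊕ Fin 2) × Sym2 (Fin 4)} (hxy : φ₂ x = φ₂ y) : T.Same x y := by
  have key : ∀ s s' : Sym2 (Fin 4), s.map (m₂ 0) = s'.map (m₂ 1) →
      T.Same (Sum.inr 0, s) (Sum.inr 1, s') := by
    intro s s' hs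
    obtain ⟨rfl, h0⟩ := dec_fib₂' s s' hs
    have h1 := Tri.Step.glue (T := T) (Sum.inr 0) 0 s h0
    rw [h.adj_in, h.gl_in] at h1
    have h2 : s.map (1 : Equiv.Perm (Fin 4)) = s := by
      show Sym2.map id s = s
      rw [Sym2.map_id]; rfl
    rw [h2] at h1
    exact Relation.EqvGen.rel _ _ h1
  obtain ⟨tx, sx⟩ := x
  obtain ⟨ty, sy⟩ := y
  rcases tx with r | a <;> rcases ty with r' | b
  · have := Sum.inl.inj hxy
    rw [Prod.mk.injEq] at this
    obtain ⟨rfl, rfl⟩ := this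
    exact Relation.EqvGen.refl _
  · exact absurd hxy (by intro h; cases h)
  · exact absurd hxy (by intro h; cases h)
  · have hs : sx.map (m₂ a) = sy.map (m₂ b) := Sum.inr.inj hxy
    by_cases hab : a = b
    · subst hab
      rw [dec_fib₂ a sx sy hs]
      exact Relation.EqvGen.refl _
    · have : (a = 0 ∧ b = 1) ∨ (a = 1 ∧ b = 0) := dec_two a b hab
      rcases this with ⟨rfl, rfl⟩ | ⟨rfl, rfl⟩
      · exact key _ _ hs
      · exact Relation.EqvGen.symm _ _ (key _ _ hs.symm)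

/-- model edges after the move with the same name are identified -/
theorem fib₃ {T : Tri (R ⊕ Fin 2)} {T' : Tri (R ⊕ Fin 3)} (h : IsMove T T')
    {x y : (R ⊕ Fin 3) × Sym2 (Fin 4)} (hxy : φ₃ x = φ₃ y) : T'.Same x y := by
  obtain ⟨tx, sx⟩ := x
  obtain ⟨ty, sy⟩ := y
  rcases tx with r | a <;> rcases ty with r' | b
  · have := Sum.inl.inj hxy
    rw [Prod.mk.injEq] at this
    obtain ⟨rfl, rfl⟩ := this
    exact Relation.EqvGen.refl _
  · exact absurd hxy (by intro h; cases h)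
  · exact absurd hxy (by intro h; cases h)
  · have hs : sx.map (m₃ a) = sy.map (m₃ b) := Sum.inr.inj hxy
    by_cases hab : a = b
    · subst hab
      rw [dec_fib₃ a sx sy hs]
      exact Relation.EqvGen.refl _
    · obtain ⟨h1, h2⟩ := dec_fib₃' a b hab sx sy hs
      have h3 := Tri.Step.glue (T := T') (Sum.inr a) b.succ sx h1
      rw [h.adj_in' a b hab, h.gl_in' a b hab, ← h2] at h3
      exact Relation.EqvGen.rel _ _ h3

/-- the name of an edge of an outer face does not depend on the triangulation -/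
theorem φ₃_lab (o : Outer R) (s : Sym2 (Fin 4)) (hs : o.f₂ ∉ s) :
    φ₃ (o.t₃, s.map o.lab) = φ₂ (o.t₂, s) := by
  have h1 : s.map (1 : Equiv.Perm (Fin 4)) = s := by
    show Sym2.map id s = s
    rw [Sym2.map_id]; rfl
  cases o with
  | rest r f =>
    show Sum.inl (r, s.map (1 : Equiv.Perm (Fin 4))) = Sum.inl (r, s)
    rw [h1]
  | top i =>
    show Sum.inr ((s.map (1 : Equiv.Perm (Fin 4))).map (m₃ i)) = Sum.inr (s.map (m₂ 0))
    rw [h1, dec_top i s hs]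
  | bot i =>
    show Sum.inr ((s.map (Equiv.swap 0 i.succ)).map (m₃ i)) = Sum.inr (s.map (m₂ 1))
    rw [dec_bot i s hs]

theorem dec_range₂ : ∀ u : Sym2 (Fin 5), (∃ (a : Fin 2) (s : Sym2 (Fin 4)), s.map (m₂ a) = u) ↔
    u ≠ s(0, 4) := by decide

theorem dec_range₃ : ∀ u : Sym2 (Fin 5), ∃ (a : Fin 3) (s : Sym2 (Fin 4)), s.map (m₃ a) = u := by
  decide

theorem range_φ₂ (a : OE R) : (∃ x, φ₂ x = a) ↔ a ≠ Sum.inr s(0, 4) := by
  rcases a with ⟨r, s⟩ | u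
  · constructor
    · rintro - h; cases h
    · intro _; exact ⟨(Sum.inl r, s), rfl⟩
  · constructor
    · rintro ⟨⟨t, s⟩, hx⟩ h
      rcases t with r | a
      · cases hx
      · exact (dec_range₂ u).1 ⟨a, s, Sum.inr.inj hx⟩ (Sum.inr.inj h)
    · intro h
      obtain ⟨a, s, hs⟩ := (dec_range₂ u).2 (fun hu => h (by rw [hu]))
      exact ⟨(Sum.inr a, s), by show Sum.inr _ = _; rw [hs]⟩

theorem range_φ₃ (a : OE R) : ∃ x : (R ⊕ Fin 3) × Sym2 (Fin 4), φ₃ x = a := by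
  rcases a with ⟨r, s⟩ | u
  · exact ⟨(Sum.inl r, s), rfl⟩
  · obtain ⟨a, s, hs⟩ := dec_range₃ u
    exact ⟨(Sum.inr a, s), by show Sum.inr _ = _; rw [hs]⟩

theorem dec_diag₂ : ∀ (a : Fin 2) (s : Sym2 (Fin 4)), s.IsDiag ↔ (s.map (m₂ a)).IsDiag := by decide

theorem dec_diag₃ : ∀ (a : Fin 3) (s : Sym2 (Fin 4)), s.IsDiag ↔ (s.map (m₃ a)).IsDiag := by decide

/-- degenerate names -/
def ODiag : OE R → Prop := Sum.elim (fun y => y.2.IsDiag) (fun u => u.IsDiag)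

theorem diag_φ₂ (x : (R ⊕ Fin 2) × Sym2 (Fin 4)) : x.2.IsDiag ↔ ODiag (φ₂ x) := by
  obtain ⟨t, s⟩ := x
  rcases t with r | a
  · rfl
  · exact dec_diag₂ a s

theorem diag_φ₃ (x : (R ⊕ Fin 3) × Sym2 (Fin 4)) : x.2.IsDiag ↔ ODiag (φ₃ x) := by
  obtain ⟨t, s⟩ := x
  rcases t with r | a
  · rfl
  · exact dec_diag₃ a s

end PTH
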