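import Pool.Agent.PTH.MoveA

/-! # Path theorem, combinatorics of the 2-3 move: classes of edges -/

open scoped BigOperators

namespace PTH

variable {R : Type}

theorem dec_in₂ : ∀ (a : Fin 2) (s : Sym2 (Fin 4)), 0 ∉ s → s.map (m₂ a) = s.map (m₂ (1 - a)) := by
  decide

theorem dec_in₃ : ∀ (i j : Fin 3) (s : Sym2 (Fin 4)), i ≠ j → j.succ ∉ s →
    s.map (m₃ i) = (s.map (Equiv.swap i.succ j.succ)).map (m₃ j) := by
  decide

theorem map_one' (s : Sym2 (Fin 4)) : s.map (1 : Equiv.Perm (Fin 4)) = s := by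
  show Sym2.map id s = s
  rw [Sym2.map_id]; rfl

theorem map_mul' (g h : Equiv.Perm (Fin 4)) (s : Sym2 (Fin 4)) :
    s.map (g * h : Equiv.Perm (Fin 4)) = (s.map h).map g := by
  show Sym2.map (g ∘ h) s = _
  rw [Sym2.map_comp]; rfl

theorem notMem_map (g : Equiv.Perm (Fin 4)) (f : Fin 4) (s : Sym2 (Fin 4)) :
    g f ∉ s.map g ↔ f ∉ s := by
  rw [Sym2.mem_map]
  constructor
  · intro h hf; exact h ⟨f, hf, rfl⟩
  · rintro h ⟨a, ha, hga⟩
    exact h (g.injective hga ▸ ha)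

theorem lab_f₂ (o : Outer R) : o.lab o.f₂ = o.f₃ := by
  cases o with
  | rest r f => rfl
  | top i => rfl
  | bot i =>
    show Equiv.swap 0 i.succ i.succ = 0
    exact Equiv.swap_apply_right _ _

theorem OSame_of_same₂ {T : Tri (R ⊕ Fin 2)} {T' : Tri (R ⊕ Fin 3)} (h : IsMove T T')
    {x y : (R ⊕ Fin 2) × Sym2 (Fin 4)} (hxy : T.Same x y) : OSame T (φ₂ x) (φ₂ y) := by
  induction hxy with
  | rel x y hs =>
    obtain ⟨t, f, s, hf⟩ := hs
    rcases outer_or t f with ⟨a, rfl, rfl⟩ | ⟨o, rfl, rfl⟩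
    · have h5 : T.adj (Sum.inr a) 0 = Sum.inr (1 - a) ∧ T.gl (Sum.inr a) 0 = 1 := by
        fin_cases a
        · exact ⟨h.adj_in, h.gl_in⟩
        · exact h.adj_in₁
      rw [h5.1, h5.2, map_one']
      have : φ₂ ((Sum.inr a : R ⊕ Fin 2), s) = φ₂ (Sum.inr (1 - a), s) := by
        show Sum.inr _ = Sum.inr _
        rw [dec_in₂ a s hf]
      rw [this]
      exact Relation.EqvGen.refl _
    · obtain ⟨o', h1, h2⟩ := h.outer_adj o
      have := OStep.mk (T := T) o o' h1 h2 s hf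
      rw [h1]
      exact Relation.EqvGen.rel _ _ this
  | refl x => exact Relation.EqvGen.refl _
  | symm x y _ ih => exact Relation.EqvGen.symm _ _ ih
  | trans x y z _ _ ih1 ih2 => exact Relation.EqvGen.trans _ _ _ ih1 ih2

theorem lift₂ {T : Tri (R ⊕ Fin 2)} {T' : Tri (R ⊕ Fin 3)} (h : IsMove T T') {a b : OE R}
    (hab : OSame T a b) :
    (∀ x, φ₂ x = a → ∃ y, φ₂ y = b ∧ T.Same x y) ∧
    (∀ y, φ₂ y = b → ∃ x, φ₂ x = a ∧ T.Same x y) := by
  induction hab with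
  | rel a b hs =>
    obtain ⟨o, o', h1, h2, s, hf⟩ := hs
    have h3 := Tri.Step.glue (T := T) o.t₂ o.f₂ s hf
    rw [h1] at h3
    have h4 : T.Same _ _ := Relation.EqvGen.rel _ _ h3
    constructor
    · intro x hx
      exact ⟨_, rfl, Relation.EqvGen.trans _ _ _ (fib₂ h hx) h4⟩
    · intro y hy
      exact ⟨_, rfl, Relation.EqvGen.trans _ _ _ h4 (fib₂ h hy.symm)⟩
  | refl a => exact ⟨fun x hx => ⟨x, hx, Relation.EqvGen.refl _⟩,
      fun x hx => ⟨x, hx, Relation.EqvGen.refl _⟩⟩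
  | symm a b _ ih =>
    constructor
    · intro x hx
      obtain ⟨y, hy, hxy⟩ := ih.2 x hx
      exact ⟨y, hy, Relation.EqvGen.symm _ _ hxy⟩
    · intro x hx
      obtain ⟨y, hy, hxy⟩ := ih.1 x hx
      exact ⟨y, hy, Relation.EqvGen.symm _ _ hxy⟩
  | trans a b c _ _ ih1 ih2 =>
    constructor
    · intro x hx
      obtain ⟨y, hy, hxy⟩ := ih1.1 x hx
      obtain ⟨z, hz, hyz⟩ := ih2.1 y hy
      exact ⟨z, hz, Relation.EqvGen.trans _ _ _ hxy hyz⟩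
    · intro z hz
      obtain ⟨y, hy, hyz⟩ := ih2.2 z hz
      obtain ⟨x, hx, hxy⟩ := ih1.2 y hy
      exact ⟨x, hx, Relation.EqvGen.trans _ _ _ hxy hyz⟩

theorem same_iff₂ {T : Tri (R ⊕ Fin 2)} {T' : Tri (R ⊕ Fin 3)} (h : IsMove T T')
    (x y : (R ⊕ Fin 2) × Sym2 (Fin 4)) : T.Same x y ↔ OSame T (φ₂ x) (φ₂ y) := by
  constructor
  · exact OSame_of_same₂ h
  · intro hxy
    obtain ⟨z, hz, hxz⟩ := (lift₂ h hxy).1 x rfl
    exact Relation.EqvGen.trans _ _ _ hxz (fib₂ h hz)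

theorem map_out {T : Tri (R ⊕ Fin 2)} {T' : Tri (R ⊕ Fin 3)} (h : IsMove T T') (o o' : Outer R)
    (h1 : T.adj o.t₂ o.f₂ = o'.t₂) (h2 : T.gl o.t₂ o.f₂ o.f₂ = o'.f₂) (s : Sym2 (Fin 4)) :
    (s.map o.lab).map (T'.gl o.t₃ o.f₃) = (s.map (T.gl o.t₂ o.f₂)).map o'.lab := by
  rw [h.gl_out o o' h1 h2, ← map_mul', ← map_mul']
  congr 1
  rw [mul_assoc, mul_assoc, inv_mul_cancel, mul_one]

theorem OSame_of_same₃ {T : Tri (R ⊕ Fin 2)} {T' : Tri (R ⊕ Fin 3)} (h : IsMove T T')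
    {x y : (R ⊕ Fin 3) × Sym2 (Fin 4)} (hxy : T'.Same x y) : OSame T (φ₃ x) (φ₃ y) := by
  induction hxy with
  | rel x y hs =>
    obtain ⟨t, f, s', hf⟩ := hs
    rcases outer_or' t f with ⟨i, j, hij, rfl, rfl⟩ | ⟨o, rfl, rfl⟩
    · rw [h.adj_in' i j hij, h.gl_in' i j hij]
      have : φ₃ ((Sum.inr i : R ⊕ Fin 3), s') =
          φ₃ (Sum.inr j, s'.map (Equiv.swap i.succ j.succ)) := by
        show Sum.inr _ = Sum.inr _
        rw [dec_in₃ i j s' hij hf]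
      rw [this]
      exact Relation.EqvGen.refl _
    · obtain ⟨o', h1, h2⟩ := h.outer_adj o
      obtain ⟨s, rfl⟩ : ∃ s : Sym2 (Fin 4), s.map o.lab = s' :=
        ⟨s'.map ((o.lab)⁻¹ : Equiv.Perm (Fin 4)), by
          rw [← map_mul', mul_inv_cancel, map_one']⟩
      have hf' : o.f₂ ∉ s := by
        rw [← notMem_map o.lab, lab_f₂]; exact hf
      have h3 := OStep.mk (T := T) o o' h1 h2 s hf'
      rw [h.adj_out o o' h1 h2, map_out h o o' h1 h2, φ₃_lab o s hf', φ₃_lab o' _ (by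
        rw [← h2, notMem_map]; exact hf')]
      exact Relation.EqvGen.rel _ _ h3
  | refl x => exact Relation.EqvGen.refl _
  | symm x y _ ih => exact Relation.EqvGen.symm _ _ ih
  | trans x y z _ _ ih1 ih2 => exact Relation.EqvGen.trans _ _ _ ih1 ih2

theorem lift₃ {T : Tri (R ⊕ Fin 2)} {T' : Tri (R ⊕ Fin 3)} (h : IsMove T T') {a b : OE R}
    (hab : OSame T a b) :
    (∀ x, φ₃ x = a → ∃ y, φ₃ y = b ∧ T'.Same x y) ∧
    (∀ y, φ₃ y = b → ∃ x, φ₃ x = a ∧ T'.Same x y) := by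
  induction hab with
  | rel a b hs =>
    obtain ⟨o, o', h1, h2, s, hf⟩ := hs
    have hf3 : o.f₃ ∉ s.map o.lab := by
      rw [← lab_f₂, notMem_map]; exact hf
    have hf4 : o'.f₂ ∉ s.map (T.gl o.t₂ o.f₂) := by
      rw [← h2, notMem_map]; exact hf
    have h3 := Tri.Step.glue (T := T') o.t₃ o.f₃ (s.map o.lab) hf3
    rw [h.adj_out o o' h1 h2, map_out h o o' h1 h2] at h3
    have h4 : T'.Same _ _ := Relation.EqvGen.rel _ _ h3
    rw [← φ₃_lab o s hf, ← φ₃_lab o' _ hf4]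
    constructor
    · intro x hx
      exact ⟨_, rfl, Relation.EqvGen.trans _ _ _ (fib₃ h hx) h4⟩
    · intro y hy
      exact ⟨_, rfl, Relation.EqvGen.trans _ _ _ h4 (fib₃ h hy.symm)⟩
  | refl a => exact ⟨fun x hx => ⟨x, hx, Relation.EqvGen.refl _⟩,
      fun x hx => ⟨x, hx, Relation.EqvGen.refl _⟩⟩
  | symm a b _ ih =>
    constructor
    · intro x hx
      obtain ⟨y, hy, hxy⟩ := ih.2 x hx
      exact ⟨y, hy, Relation.EqvGen.symm _ _ hxy⟩
    · intro x hx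
      obtain ⟨y, hy, hxy⟩ := ih.1 x hx
      exact ⟨y, hy, Relation.EqvGen.symm _ _ hxy⟩
  | trans a b c _ _ ih1 ih2 =>
    constructor
    · intro x hx
      obtain ⟨y, hy, hxy⟩ := ih1.1 x hx
      obtain ⟨z, hz, hyz⟩ := ih2.1 y hy
      exact ⟨z, hz, Relation.EqvGen.trans _ _ _ hxy hyz⟩
    · intro z hz
      obtain ⟨y, hy, hyz⟩ := ih2.2 z hz
      obtain ⟨x, hx, hxy⟩ := ih1.2 y hy
      exact ⟨x, hx, Relation.EqvGen.trans _ _ _ hxy hyz⟩

theorem same_iff₃ {T : Tri (R ⊕ Fin 2)} {T' : Tri (R ⊕ Fin 3)} (h : IsMove T T')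
    (x y : (R ⊕ Fin 3) × Sym2 (Fin 4)) : T'.Same x y ↔ OSame T (φ₃ x) (φ₃ y) := by
  constructor
  · exact OSame_of_same₃ h
  · intro hxy
    obtain ⟨z, hz, hxz⟩ := (lift₃ h hxy).1 x rfl
    exact Relation.EqvGen.trans _ _ _ hxz (fib₃ h hz)

/-- the axis is identified with nothing else -/
theorem OSame_axis {T : Tri (R ⊕ Fin 2)} {a b : OE R} (hab : OSame T a b) :
    a = Sum.inr s(0, 4) ↔ b = Sum.inr s(0, 4) := by
  induction hab with
  | rel a b hs =>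
    obtain ⟨o, o', h1, h2, s, hf⟩ := hs
    exact ⟨fun h => absurd h ((range_φ₂ _).1 ⟨_, rfl⟩), fun h => absurd h ((range_φ₂ _).1 ⟨_, rfl⟩)⟩
  | refl a => exact Iff.rfl
  | symm a b _ ih => exact ih.symm
  | trans a b c _ _ ih1 ih2 => exact ih1.trans ih2

end PTH
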