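import Pool.Agent.PTH.MoveB

/-! # Path theorem, combinatorics of the 2-3 move: the angle systems correspond -/

open scoped BigOperators

namespace PTH

variable {R : Type}

theorem sum_fib {X Y : Type} [Fintype X] [Fintype Y] [DecidableEq Y] (φ : X → Y) (P : Y → Prop)
    [DecidablePred P] [DecidablePred fun x => P (φ x)] (f : X → ℝ) :
    ∑ x ∈ (Finset.univ : Finset X).filter (fun x => P (φ x)), f x =
      ∑ a ∈ (Finset.univ : Finset Y).filter P,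
        ∑ x ∈ (Finset.univ : Finset X).filter (fun x => φ x = a), f x := by
  rw [← Finset.sum_fiberwise_of_maps_to (s := (Finset.univ : Finset X).filter (fun x => P (φ x)))
    (t := (Finset.univ : Finset Y).filter P) (g := φ)
    (fun x hx => by simpa using (Finset.mem_filter.1 hx).2)]
  refine Finset.sum_congr rfl fun a ha => Finset.sum_congr ?_ fun _ _ => rfl
  ext x
  simp only [Finset.mem_filter, Finset.mem_univ, true_and] at ha ⊢
  constructor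
  · exact fun h => h.2
  · exact fun h => ⟨h ▸ ha, h⟩

open Classical in
/-- total angle at a name, before the move -/
noncomputable def D₂ [Fintype R] (β : R ⊕ Fin 2 → Fin 3 → ℝ) (a : OE R) : ℝ :=
  ∑ x ∈ (Finset.univ : Finset ((R ⊕ Fin 2) × Sym2 (Fin 4))).filter (fun x => φ₂ x = a),
    β x.1 (qs x.2)

open Classical in
/-- total angle at a name, after the move -/
noncomputable def D₃ [Fintype R] (α : R ⊕ Fin 3 → Fin 3 → ℝ) (a : OE R) : ℝ :=
  ∑ x ∈ (Finset.univ : Finset ((R ⊕ Fin 3) × Sym2 (Fin 4))).filter (fun x => φ₃ x = a),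
    α x.1 (qs x.2)

open Classical in
theorem edgeSum₂ [Fintype R] {T : Tri (R ⊕ Fin 2)} {T' : Tri (R ⊕ Fin 3)} (h : IsMove T T')
    (e : (R ⊕ Fin 2) × Sym2 (Fin 4)) (β : R ⊕ Fin 2 → Fin 3 → ℝ) :
    T.edgeSum e β = ∑ a ∈ (Finset.univ : Finset (OE R)).filter
      (fun a => ¬ ODiag a ∧ OSame T (φ₂ e) a), D₂ β a := by
  unfold Tri.edgeSum D₂
  refine Eq.trans ?_ (sum_fib φ₂ (fun a => ¬ ODiag a ∧ OSame T (φ₂ e) a)
    (fun x => β x.1 (qs x.2)))
  refine Finset.sum_congr ?_ fun _ _ => rfl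
  ext x
  simp only [Finset.mem_filter, Finset.mem_univ, true_and]
  rw [diag_φ₂, same_iff₂ h]

open Classical in
theorem edgeSum₃ [Fintype R] {T : Tri (R ⊕ Fin 2)} {T' : Tri (R ⊕ Fin 3)} (h : IsMove T T')
    (e : (R ⊕ Fin 3) × Sym2 (Fin 4)) (α : R ⊕ Fin 3 → Fin 3 → ℝ) :
    T'.edgeSum e α = ∑ a ∈ (Finset.univ : Finset (OE R)).filter
      (fun a => ¬ ODiag a ∧ OSame T (φ₃ e) a), D₃ α a := by
  unfold Tri.edgeSum D₃
  refine Eq.trans ?_ (sum_fib φ₃ (fun a => ¬ ODiag a ∧ OSame T (φ₃ e) a)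
    (fun x => α x.1 (qs x.2)))
  refine Finset.sum_congr ?_ fun _ _ => rfl
  ext x
  simp only [Finset.mem_filter, Finset.mem_univ, true_and]
  rw [diag_φ₃, same_iff₃ h]

/-- numbers of model edges -/
def cnt₂ (a : Fin 2) (u : Sym2 (Fin 5)) (k : Fin 3) : ℕ :=
  (Finset.univ.filter (fun s : Sym2 (Fin 4) => s.map (m₂ a) = u ∧ qs s = k)).card

def cnt₃ (a : Fin 3) (u : Sym2 (Fin 5)) (k : Fin 3) : ℕ :=
  (Finset.univ.filter (fun s : Sym2 (Fin 4) => s.map (m₃ a) = u ∧ qs s = k)).card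

theorem cnt_sum (p : Sym2 (Fin 4) → Prop) [DecidablePred p] (f : Fin 3 → ℝ) :
    ∑ s ∈ (Finset.univ : Finset (Sym2 (Fin 4))).filter p, f (qs s) =
      ∑ k, ((Finset.univ.filter (fun s : Sym2 (Fin 4) => p s ∧ qs s = k)).card : ℝ) * f k := by
  rw [← Finset.sum_fiberwise_of_maps_to (s := (Finset.univ : Finset (Sym2 (Fin 4))).filter p)
    (t := (Finset.univ : Finset (Fin 3))) (g := qs) (fun x _ => Finset.mem_univ _)]
  refine Finset.sum_congr rfl fun k _ => ?_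
  rw [Finset.filter_filter, ← nsmul_eq_mul, ← Finset.sum_const]
  refine Finset.sum_congr rfl fun s hs => ?_
  rw [(Finset.mem_filter.1 hs).2.2]

theorem D₂_inr [Fintype R] (β : R ⊕ Fin 2 → Fin 3 → ℝ) (u : Sym2 (Fin 5)) :
    D₂ β (Sum.inr u) = ∑ a, ∑ k, (cnt₂ a u k : ℝ) * β (Sum.inr a) k := by
  classical
  unfold cnt₂
  have h0 : D₂ β (Sum.inr u) = ∑ x ∈ (Finset.univ : Finset ((R ⊕ Fin 2) × Sym2 (Fin 4))).filter
      (fun x => φ₂ x = Sum.inr u), β x.1 (qs x.2) := by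
    unfold D₂
    exact Finset.sum_congr (Finset.filter_congr_decidable ..) fun _ _ => rfl
  rw [h0]
  rw [Finset.sum_filter, Fintype.sum_prod_type, Fintype.sum_sum_type]
  have h1 : ∑ r : R, ∑ s : Sym2 (Fin 4),
      (if φ₂ ((Sum.inl r : R ⊕ Fin 2), s) = Sum.inr u then β (Sum.inl r) (qs s) else 0) = 0 := by
    refine Finset.sum_eq_zero fun r _ => Finset.sum_eq_zero fun s _ => if_neg ?_
    intro h; cases h
  rw [h1, zero_add]
  refine Finset.sum_congr rfl fun a _ => ?_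
  rw [← Finset.sum_filter]
  have h2 := cnt_sum (fun s => s.map (m₂ a) = u) (β (Sum.inr a))
  rw [show (Finset.univ.filter fun s : Sym2 (Fin 4) => φ₂ ((Sum.inr a : R ⊕ Fin 2), s) = Sum.inr u)
    = Finset.univ.filter (fun s : Sym2 (Fin 4) => s.map (m₂ a) = u) from
      Finset.filter_congr fun s _ => by
        show Sum.inr _ = Sum.inr _ ↔ _
        rw [Sum.inr.injEq]]
  exact h2

theorem D₃_inr [Fintype R] (β : R ⊕ Fin 3 → Fin 3 → ℝ) (u : Sym2 (Fin 5)) :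
    D₃ β (Sum.inr u) = ∑ a, ∑ k, (cnt₃ a u k : ℝ) * β (Sum.inr a) k := by
  classical
  unfold cnt₃
  have h0 : D₃ β (Sum.inr u) = ∑ x ∈ (Finset.univ : Finset ((R ⊕ Fin 3) × Sym2 (Fin 4))).filter
      (fun x => φ₃ x = Sum.inr u), β x.1 (qs x.2) := by
    unfold D₃
    exact Finset.sum_congr (Finset.filter_congr_decidable ..) fun _ _ => rfl
  rw [h0]
  rw [Finset.sum_filter, Fintype.sum_prod_type, Fintype.sum_sum_type]
  have h1 : ∑ r : R, ∑ s : Sym2 (Fin 4),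
      (if φ₃ ((Sum.inl r : R ⊕ Fin 3), s) = Sum.inr u then β (Sum.inl r) (qs s) else 0) = 0 := by
    refine Finset.sum_eq_zero fun r _ => Finset.sum_eq_zero fun s _ => if_neg ?_
    intro h; cases h
  rw [h1, zero_add]
  refine Finset.sum_congr rfl fun a _ => ?_
  rw [← Finset.sum_filter]
  have h2 := cnt_sum (fun s => s.map (m₃ a) = u) (β (Sum.inr a))
  rw [show (Finset.univ.filter fun s : Sym2 (Fin 4) => φ₃ ((Sum.inr a : R ⊕ Fin 3), s) = Sum.inr u)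
    = Finset.univ.filter (fun s : Sym2 (Fin 4) => s.map (m₃ a) = u) from
      Finset.filter_congr fun s _ => by
        show Sum.inr _ = Sum.inr _ ↔ _
        rw [Sum.inr.injEq]]
  exact h2

theorem D_inl [Fintype R] (α : R ⊕ Fin 3 → Fin 3 → ℝ) (y : R × Sym2 (Fin 4)) :
    D₂ (push α) (Sum.inl y) = D₃ α (Sum.inl y) := by
  classical
  unfold D₂ D₃
  rw [Finset.sum_filter, Finset.sum_filter, Fintype.sum_prod_type, Fintype.sum_sum_type,
    Fintype.sum_prod_type, Fintype.sum_sum_type]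
  have h1 : ∀ a : Fin 2, ∀ s : Sym2 (Fin 4),
      (if φ₂ ((Sum.inr a : R ⊕ Fin 2), s) = Sum.inl y then push α (Sum.inr a) (qs s) else 0) = 0 :=
    fun a s => if_neg (by intro h; cases h)
  have h2 : ∀ a : Fin 3, ∀ s : Sym2 (Fin 4),
      (if φ₃ ((Sum.inr a : R ⊕ Fin 3), s) = Sum.inl y then α (Sum.inr a) (qs s) else 0) = 0 :=
    fun a s => if_neg (by intro h; cases h)
  simp only [h1, h2, Finset.sum_const_zero, add_zero]
  rfl

/-- equatorial vertices -/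
def e5 (j : Fin 3) : Fin 5 := j.succ.castSucc

theorem u_cases : ∀ u : Sym2 (Fin 5), ¬ u.IsDiag → u ≠ s(0, 4) →
    (∃ j, u = s(0, e5 j)) ∨ (∃ j, u = s(4, e5 j)) ∨ (∃ l, u = s(e5 (l + 1), e5 (l + 2))) := by
  decide

theorem c₂N : ∀ (j : Fin 3) (a : Fin 2) (k : Fin 3), cnt₂ a s(0, e5 j) k =
    if a = 0 ∧ k = j then 1 else 0 := by decide

theorem c₂S : ∀ (j : Fin 3) (a : Fin 2) (k : Fin 3), cnt₂ a s(4, e5 j) k =
    if a = 1 ∧ k = j then 1 else 0 := by decide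

theorem c₂E : ∀ (l : Fin 3) (a : Fin 2) (k : Fin 3), cnt₂ a s(e5 (l + 1), e5 (l + 2)) k =
    if k = l then 1 else 0 := by decide

theorem c₃N : ∀ (j : Fin 3) (a : Fin 3) (k : Fin 3), cnt₃ a s(0, e5 j) k =
    if a ≠ j ∧ k = j then 1 else 0 := by decide

theorem c₃S : ∀ (j : Fin 3) (a : Fin 3) (k : Fin 3), cnt₃ a s(4, e5 j) k =
    if a ≠ j ∧ k ≠ a ∧ k ≠ j then 1 else 0 := by decide

theorem c₃E : ∀ (l : Fin 3) (a : Fin 3) (k : Fin 3), cnt₃ a s(e5 (l + 1), e5 (l + 2)) k =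
    if a = l ∧ k = l then 1 else 0 := by decide

theorem c₃A : ∀ (a : Fin 3) (k : Fin 3), cnt₃ a s(0, 4) k = if k = a then 1 else 0 := by decide

theorem D₃_axis [Fintype R] (α : R ⊕ Fin 3 → Fin 3 → ℝ) :
    D₃ α (Sum.inr s(0, 4)) = ∑ i, α (Sum.inr i) i := by
  rw [D₃_inr]
  refine Finset.sum_congr rfl fun i _ => ?_
  simp only [c₃A]
  simp

theorem D_eq [Fintype R] (α : R ⊕ Fin 3 → Fin 3 → ℝ) (κ : ℝ) (h1 : ∀ t, ∑ i, α t i = κ)
    (h2 : ∑ i, α (Sum.inr i) i = 2 * κ) (a : OE R) (ha : ¬ ODiag a)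
    (hx : a ≠ Sum.inr s(0, 4)) : D₂ (push α) a = D₃ α a := by
  rcases a with y | u
  · exact D_inl α y
  · rw [D₂_inr, D₃_inr]
    have k0 := h1 (Sum.inr 0)
    have k1 := h1 (Sum.inr 1)
    have k2 := h1 (Sum.inr 2)
    rw [Fin.sum_univ_three] at k0 k1 k2 h2
    rcases u_cases u ha (fun h => hx (by rw [h])) with ⟨j, rfl⟩ | ⟨j, rfl⟩ | ⟨l, rfl⟩
    · simp only [c₂N, c₃N]
      fin_cases j <;> simp [Fin.sum_univ_three, push] <;> ring
    · simp only [c₂S, c₃S]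
      fin_cases j <;> simp [Fin.sum_univ_three, push] <;> ring
    · simp only [c₂E, c₃E]
      fin_cases l <;> simp [Fin.sum_univ_two, Fin.sum_univ_three, push] <;> linarith

open Classical in
theorem edgeSum_eq [Fintype R] {T : Tri (R ⊕ Fin 2)} {T' : Tri (R ⊕ Fin 3)} (h : IsMove T T')
    (α : R ⊕ Fin 3 → Fin 3 → ℝ) (κ : ℝ) (h1 : ∀ t, ∑ i, α t i = κ)
    (h2 : ∑ i, α (Sum.inr i) i = 2 * κ) (x : (R ⊕ Fin 2) × Sym2 (Fin 4))
    (y : (R ⊕ Fin 3) × Sym2 (Fin 4)) (hxy : φ₂ x = φ₃ y) :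
    T'.edgeSum y α = T.edgeSum x (push α) := by
  rw [edgeSum₂ h, edgeSum₃ h, hxy]
  refine Finset.sum_congr rfl fun a ha => ?_
  obtain ⟨ha1, ha2⟩ := (Finset.mem_filter.1 ha).2
  refine (D_eq α κ h1 h2 a ha1 fun hax => ?_).symm
  have := (OSame_axis ha2).2 hax
  exact (range_φ₂ _).1 ⟨x, hxy⟩ this

open Classical in
theorem edgeSum_axis [Fintype R] {T : Tri (R ⊕ Fin 2)} {T' : Tri (R ⊕ Fin 3)} (h : IsMove T T')
    (α : R ⊕ Fin 3 → Fin 3 → ℝ) (y : (R ⊕ Fin 3) × Sym2 (Fin 4))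
    (hy : φ₃ y = Sum.inr s(0, 4)) : T'.edgeSum y α = ∑ i, α (Sum.inr i) i := by
  rw [edgeSum₃ h, hy, ← D₃_axis α]
  refine Finset.sum_eq_single_of_mem _ ?_ ?_
  · refine Finset.mem_filter.2 ⟨Finset.mem_univ _, ?_, Relation.EqvGen.refl _⟩
    show ¬ (s(0, 4) : Sym2 (Fin 5)).IsDiag
    decide
  · intro a ha hne
    exact absurd ((OSame_axis (Finset.mem_filter.1 ha).2.2).1 rfl) hne

/-- **The angle systems before and after a 2-3 move.** -/
theorem sys_move [Fintype R] {T : Tri (R ⊕ Fin 2)} {T' : Tri (R ⊕ Fin 3)} (h : IsMove T T')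
    (κ : ℝ) (α : R ⊕ Fin 3 → Fin 3 → ℝ) :
    α ∈ T'.Sys κ ↔
      ((∀ t, ∑ i, α t i = κ) ∧ ∑ i, α (Sum.inr i) i = 2 * κ ∧ push α ∈ T.Sys κ) := by
  constructor
  · rintro ⟨h1, h2⟩
    have hax : ∑ i, α (Sum.inr i) i = 2 * κ := by
      rw [← edgeSum_axis h α (Sum.inr 0, s(0, 1)) (by
        show Sum.inr (Sym2.map (m₃ 0) s(0, 1)) = Sum.inr s(0, 4)
        congr 1)]
      refine h2 _ ?_
      show ¬ (s(0, 1) : Sym2 (Fin 4)).IsDiag
      decide
    refine ⟨h1, hax, fun t => ?_, fun e he => ?_⟩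
    · rcases t with r | a
      · exact h1 (Sum.inl r)
      · have k0 := h1 (Sum.inr 0)
        have k1 := h1 (Sum.inr 1)
        have k2 := h1 (Sum.inr 2)
        rw [Fin.sum_univ_three] at k0 k1 k2 hax
        fin_cases a <;> simp [Fin.sum_univ_three, push] <;> linarith
    · obtain ⟨y, hy⟩ := range_φ₃ (φ₂ e)
      rw [← edgeSum_eq h α κ h1 hax e y hy.symm]
      refine h2 y ?_
      rw [diag_φ₃, hy, ← diag_φ₂]; exact he
  · rintro ⟨h1, hax, h3⟩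
    refine ⟨h1, fun e he => ?_⟩
    by_cases hc : φ₃ e = Sum.inr s(0, 4)
    · rw [edgeSum_axis h α e hc, hax]
    · obtain ⟨x, hx⟩ := (range_φ₂ _).2 hc
      rw [edgeSum_eq h α κ h1 hax x e hx]
      refine h3.2 x ?_
      rw [diag_φ₂, hx, ← diag_φ₃]; exact he

end PTH
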