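import Pool.Agent.PTH.MoveC

/-! # Path theorem: the map `push` between the tangent spaces -/

open scoped BigOperators

namespace PTH

variable {R : Type}

/-- the kernel direction of `push` -/
def ker₃ (R : Type) : R ⊕ Fin 3 → Fin 3 → ℝ
  | Sum.inl _ => 0
  | Sum.inr 0 => ![0, 1, -1]
  | Sum.inr 1 => ![-1, 0, 1]
  | Sum.inr 2 => ![1, -1, 0]

/-- a section of `push` on assignments with sum zero in every tetrahedron -/
def secF (y : R ⊕ Fin 2 → Fin 3 → ℝ) : R ⊕ Fin 3 → Fin 3 → ℝ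
  | Sum.inl r => y (Sum.inl r)
  | Sum.inr 0 => ![y (Sum.inr 0) 0 + y (Sum.inr 1) 0, 0, -(y (Sum.inr 0) 0 + y (Sum.inr 1) 0)]
  | Sum.inr 1 => ![y (Sum.inr 1) 2, y (Sum.inr 0) 1 + y (Sum.inr 1) 1,
      y (Sum.inr 0) 2 + y (Sum.inr 0) 0 + y (Sum.inr 1) 0]
  | Sum.inr 2 => ![y (Sum.inr 1) 1 + y (Sum.inr 0) 0 + y (Sum.inr 1) 0, y (Sum.inr 0) 1,
      y (Sum.inr 0) 2 + y (Sum.inr 1) 2]

/-- the section as a linear map -/
def sec₃ (R : Type) : (R ⊕ Fin 2 → Fin 3 → ℝ) →ₗ[ℝ] (R ⊕ Fin 3 → Fin 3 → ℝ) where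
  toFun := secF
  map_add' := by
    intro y z
    funext t j
    rcases t with r | a
    · rfl
    · fin_cases a <;> fin_cases j <;> simp [secF] <;> ring
  map_smul' := by
    intro c y
    funext t j
    rcases t with r | a
    · rfl
    · fin_cases a <;> fin_cases j <;> simp [secF] <;> ring

theorem sec₃_inl (y : R ⊕ Fin 2 → Fin 3 → ℝ) (r : R) : sec₃ R y (Sum.inl r) = y (Sum.inl r) := rfl

theorem ker₃_sum (t : R ⊕ Fin 3) : ∑ i, ker₃ R t i = 0 := by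
  rcases t with r | a
  · simp [ker₃]
  · fin_cases a <;> simp [ker₃, Fin.sum_univ_three]

theorem ker₃_axis : ∑ i : Fin 3, ker₃ R (Sum.inr i) i = 0 := by
  simp [ker₃, Fin.sum_univ_three]

theorem push_ker₃ : push (ker₃ R) = 0 := by
  funext t j
  rcases t with r | a
  · rfl
  · fin_cases a <;> fin_cases j <;> simp [ker₃, push]

theorem sec₃_sum {y : R ⊕ Fin 2 → Fin 3 → ℝ} (hy : ∀ t, ∑ i, y t i = 0) (t : R ⊕ Fin 3) :
    ∑ i, sec₃ R y t i = 0 := by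
  have h0 := hy (Sum.inr 0)
  have h1 := hy (Sum.inr 1)
  rw [Fin.sum_univ_three] at h0 h1
  rcases t with r | a
  · exact hy (Sum.inl r)
  · fin_cases a <;> simp [sec₃, secF, Fin.sum_univ_three] <;> linarith

theorem sec₃_axis {y : R ⊕ Fin 2 → Fin 3 → ℝ} (hy : ∀ t, ∑ i, y t i = 0) :
    ∑ i : Fin 3, sec₃ R y (Sum.inr i) i = 0 := by
  have h0 := hy (Sum.inr 0)
  have h1 := hy (Sum.inr 1)
  rw [Fin.sum_univ_three] at h0 h1
  simp [sec₃, secF, Fin.sum_univ_three]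
  linarith

theorem push_sec₃ {y : R ⊕ Fin 2 → Fin 3 → ℝ} (hy : ∀ t, ∑ i, y t i = 0) :
    push (sec₃ R y) = y := by
  have h0 := hy (Sum.inr 0)
  have h1 := hy (Sum.inr 1)
  rw [Fin.sum_univ_three] at h0 h1
  funext t j
  rcases t with r | a
  · rfl
  · fin_cases a <;> fin_cases j <;> simp [sec₃, secF, push] <;> linarith

/-- every element of the kernel is a multiple of `ker₃` -/
theorem eq_smul_ker₃ {x : R ⊕ Fin 3 → Fin 3 → ℝ} (h1 : ∀ t, ∑ i, x t i = 0)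
    (h2 : ∑ i : Fin 3, x (Sum.inr i) i = 0) (h3 : push x = 0) :
    x = x (Sum.inr 0) 1 • ker₃ R := by
  have p : ∀ t j, push x t j = 0 := fun t j => by rw [h3]; rfl
  have a0 := p (Sum.inr 0) 0
  have a1 := p (Sum.inr 0) 1
  have a2 := p (Sum.inr 0) 2
  have b0 := p (Sum.inr 1) 0
  have b1 := p (Sum.inr 1) 1
  have b2 := p (Sum.inr 1) 2
  have k0 := h1 (Sum.inr 0)
  have k1 := h1 (Sum.inr 1)
  have k2 := h1 (Sum.inr 2)
  rw [Fin.sum_univ_three] at k0 k1 k2 h2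
  simp [push] at a0 a1 a2 b0 b1 b2
  funext t j
  rcases t with r | a
  · have := p (Sum.inl r) j
    simp [ker₃]; exact this
  · fin_cases a <;> fin_cases j <;> simp [ker₃] <;> linarith

variable [Fintype R] {T : Tri (R ⊕ Fin 2)} {T' : Tri (R ⊕ Fin 3)}

theorem mem_TA_move (h : IsMove T T') (x : R ⊕ Fin 3 → Fin 3 → ℝ) :
    x ∈ T'.TA ↔ ((∀ t, ∑ i, x t i = 0) ∧ ∑ i : Fin 3, x (Sum.inr i) i = 0 ∧ push x ∈ T.TA) := by
  have := sys_move h 0 x
  rw [mul_zero] at this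
  exact this

/-- `TA T' = sec₃ (TA T) + ℝ ker₃` -/
theorem sec_mem_TA (h : IsMove T T') {y : R ⊕ Fin 2 → Fin 3 → ℝ} (hy : y ∈ T.TA) (s : ℝ) :
    sec₃ R y + s • ker₃ R ∈ T'.TA := by
  rw [mem_TA_move h]
  have hz := T.sum_TA hy
  refine ⟨fun t => ?_, ?_, ?_⟩
  · simp only [Pi.add_apply, Pi.smul_apply, smul_eq_mul, Finset.sum_add_distrib,
      ← Finset.mul_sum, sec₃_sum hz, ker₃_sum, mul_zero, add_zero]
  · simp only [Pi.add_apply, Pi.smul_apply, smul_eq_mul, Finset.sum_add_distrib,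
      ← Finset.mul_sum, sec₃_axis hz, ker₃_axis, mul_zero, add_zero]
  · have : push (sec₃ R y + s • ker₃ R) = y := by
      rw [← pushL_apply, map_add, map_smul, pushL_apply, pushL_apply, push_sec₃ hz, push_ker₃,
        smul_zero, add_zero]
    rw [this]; exact hy

theorem exists_of_mem_TA (h : IsMove T T') {x : R ⊕ Fin 3 → Fin 3 → ℝ} (hx : x ∈ T'.TA) :
    ∃ s : ℝ, x = sec₃ R (push x) + s • ker₃ R := by
  obtain ⟨h1, h2, h3⟩ := (mem_TA_move h x).1 hx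
  have hz := T.sum_TA h3
  have e1 : ∀ t, ∑ i, (x - sec₃ R (push x)) t i = 0 := fun t => by
    simp only [Pi.sub_apply, Finset.sum_sub_distrib, h1, sec₃_sum hz, sub_zero]
  have e2 : ∑ i : Fin 3, (x - sec₃ R (push x)) (Sum.inr i) i = 0 := by
    simp only [Pi.sub_apply, Finset.sum_sub_distrib, h2, sec₃_axis hz, sub_zero]
  have e3 : push (x - sec₃ R (push x)) = 0 := by
    rw [← pushL_apply, map_sub, pushL_apply, pushL_apply, push_sec₃ hz, sub_self]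
  refine ⟨(x - sec₃ R (push x)) (Sum.inr 0) 1, ?_⟩
  rw [← eq_smul_ker₃ e1 e2 e3]
  abel

end PTH
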