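import Pool.Agent.PTH.Lin

/-! # Path theorem: renaming -/

open scoped BigOperators

namespace PTH

theorem dec_q : ∀ a b c d : Fin 4, a ≠ b → a ≠ c → a ≠ d → b ≠ c → b ≠ d → c ≠ d →
    ∀ v w : Fin 4, v ≠ w → q (![a, b, c, d] v) (![a, b, c, d] w) =
      ![q a b, q a c, q a d] (q v w) := by
  decide

theorem dec_inj : ∀ a b c d : Fin 4, a ≠ b → a ≠ c → a ≠ d → b ≠ c → b ≠ d → c ≠ d →
    ∀ i j : Fin 3, ![q a b, q a c, q a d] i = ![q a b, q a c, q a d] j → i = j := by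
  decide

theorem perm_eq (p : Equiv.Perm (Fin 4)) (v : Fin 4) : p v = ![p 0, p 1, p 2, p 3] v := by
  fin_cases v <;> rfl

theorem pq_eq (p : Equiv.Perm (Fin 4)) (i : Fin 3) :
    pq p i = ![q (p 0) (p 1), q (p 0) (p 2), q (p 0) (p 3)] i := by
  fin_cases i <;> rfl

theorem perm_ne (p : Equiv.Perm (Fin 4)) {a b : Fin 4} (h : a ≠ b) : p a ≠ p b :=
  fun hh => h (p.injective hh)

theorem q_perm (p : Equiv.Perm (Fin 4)) (v w : Fin 4) (h : v ≠ w) :
    q (p v) (p w) = pq p (q v w) := by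
  rw [perm_eq p v, perm_eq p w, pq_eq]
  exact dec_q _ _ _ _ (perm_ne p (by decide)) (perm_ne p (by decide)) (perm_ne p (by decide))
    (perm_ne p (by decide)) (perm_ne p (by decide)) (perm_ne p (by decide)) v w h

theorem pq_injective (p : Equiv.Perm (Fin 4)) : Function.Injective (pq p) := by
  intro i j h
  rw [pq_eq, pq_eq] at h
  exact dec_inj _ _ _ _ (perm_ne p (by decide)) (perm_ne p (by decide)) (perm_ne p (by decide))
    (perm_ne p (by decide)) (perm_ne p (by decide)) (perm_ne p (by decide)) i j h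

/-- `pq p` as a permutation -/
noncomputable def pqE (p : Equiv.Perm (Fin 4)) : Equiv.Perm (Fin 3) :=
  Equiv.ofBijective (pq p) (Finite.injective_iff_bijective.1 (pq_injective p))

@[simp] theorem pqE_apply (p : Equiv.Perm (Fin 4)) (i : Fin 3) : pqE p i = pq p i := rfl

theorem qs_map (p : Equiv.Perm (Fin 4)) (s : Sym2 (Fin 4)) (h : ¬ s.IsDiag) :
    qs (s.map p) = pq p (qs s) := by
  induction s using Sym2.ind with
  | _ v w =>
    have : v ≠ w := by simpa using h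
    exact q_perm p v w this

variable {ι ι₁ : Type}

/-- renaming of angle assignments, as a linear equivalence -/
noncomputable def relE (e : ι ≃ ι₁) (p : ι → Equiv.Perm (Fin 4)) :
    (ι → Fin 3 → ℝ) ≃ₗ[ℝ] (ι₁ → Fin 3 → ℝ) where
  toFun α := fun t i => α (e.symm t) ((pqE (p (e.symm t))).symm i)
  invFun α₁ := fun t i => α₁ (e t) (pqE (p t) i)
  map_add' _ _ := rfl
  map_smul' _ _ := rfl
  left_inv α := by
    funext t i
    show α (e.symm (e t)) ((pqE (p (e.symm (e t)))).symm (pqE (p t) i)) = α t i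
    rw [Equiv.symm_apply_apply, Equiv.symm_apply_apply]
  right_inv α := by
    funext t i
    show α (e (e.symm t)) (pqE (p (e.symm t)) ((pqE (p (e.symm t))).symm i)) = α t i
    rw [Equiv.apply_symm_apply, Equiv.apply_symm_apply]

theorem relE_rel (e : ι ≃ ι₁) (p : ι → Equiv.Perm (Fin 4)) (α : ι → Fin 3 → ℝ) :
    RelabelAng e p α (relE e p α) := by
  intro t i
  show α (e.symm (e t)) ((pqE (p (e.symm (e t)))).symm (pq (p t) i)) = α t i
  rw [Equiv.symm_apply_apply, ← pqE_apply, Equiv.symm_apply_apply]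

theorem relE_apply (e : ι ≃ ι₁) (p : ι → Equiv.Perm (Fin 4)) (α : ι → Fin 3 → ℝ) (t : ι)
    (i : Fin 3) : relE e p α (e t) (pqE (p t) i) = α t i := relE_rel e p α t i

/-- renaming of model edges -/
def relX (e : ι ≃ ι₁) (p : ι → Equiv.Perm (Fin 4)) (x : ι × Sym2 (Fin 4)) : ι₁ × Sym2 (Fin 4) :=
  (e x.1, x.2.map (p x.1))

theorem map_one'' (s : Sym2 (Fin 4)) : s.map (1 : Equiv.Perm (Fin 4)) = s := by
  show Sym2.map id s = s
  rw [Sym2.map_id]; rfl

theorem map_mul'' (g h : Equiv.Perm (Fin 4)) (s : Sym2 (Fin 4)) :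
    s.map (g * h : Equiv.Perm (Fin 4)) = (s.map h).map g := by
  show Sym2.map (g ∘ h) s = _
  rw [Sym2.map_comp]; rfl

theorem relX_bij (e : ι ≃ ι₁) (p : ι → Equiv.Perm (Fin 4)) : Function.Bijective (relX e p) := by
  constructor
  · rintro ⟨t, s⟩ ⟨t', s'⟩ h
    have h1 : e t = e t' := congrArg Prod.fst h
    have h2 : s.map (p t) = s'.map (p t') := congrArg Prod.snd h
    obtain rfl := e.injective h1
    have : s = s' := by
      have := congrArg (fun u : Sym2 (Fin 4) => u.map ((p t)⁻¹ : Equiv.Perm (Fin 4))) h2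
      simp only [← map_mul'', inv_mul_cancel, map_one''] at this
      exact this
    rw [this]
  · rintro ⟨t, s⟩
    refine ⟨(e.symm t, s.map ((p (e.symm t))⁻¹ : Equiv.Perm (Fin 4))), ?_⟩
    show (e (e.symm t), _) = _
    rw [Equiv.apply_symm_apply]
    congr 1
    show (s.map ((p (e.symm t))⁻¹ : Equiv.Perm (Fin 4))).map (p (e.symm t)) = s
    rw [← map_mul'', mul_inv_cancel, map_one'']

theorem isDiag_map_iff (g : Equiv.Perm (Fin 4)) (s : Sym2 (Fin 4)) :
    (s.map g).IsDiag ↔ s.IsDiag := by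
  induction s using Sym2.ind with
  | _ v w => simp

theorem same_relX {T : Tri ι} {T₁ : Tri ι₁} {e : ι ≃ ι₁} {p : ι → Equiv.Perm (Fin 4)}
    (h : IsRelabel T T₁ e p) {x y : ι × Sym2 (Fin 4)} (hxy : T.Same x y) :
    T₁.Same (relX e p x) (relX e p y) := by
  induction hxy with
  | rel x y hs =>
    obtain ⟨t, f, s, hf⟩ := hs
    have hf' : p t f ∉ s.map (p t) := by
      rw [Sym2.mem_map]
      rintro ⟨a, ha, hga⟩
      exact hf ((p t).injective hga ▸ ha)
    have h1 := Tri.Step.glue (T := T₁) (e t) (p t f) (s.map (p t)) hf'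
    rw [h.1, h.2.1, ← map_mul'', inv_mul_cancel_right, map_mul''] at h1
    exact Relation.EqvGen.rel _ _ h1
  | refl x => exact Relation.EqvGen.refl _
  | symm x y _ ih => exact Relation.EqvGen.symm _ _ ih
  | trans x y z _ _ ih1 ih2 => exact Relation.EqvGen.trans _ _ _ ih1 ih2

theorem same_relX' {T : Tri ι} {T₁ : Tri ι₁} {e : ι ≃ ι₁} {p : ι → Equiv.Perm (Fin 4)}
    (h : IsRelabel T T₁ e p) {a b : ι₁ × Sym2 (Fin 4)} (hab : T₁.Same a b) :
    ∀ x y, relX e p x = a → relX e p y = b → T.Same x y := by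
  induction hab with
  | rel a b hs =>
    obtain ⟨t₁, f₁, s₁, hf⟩ := hs
    rintro x y hx hy
    obtain ⟨t, s⟩ := x
    have ht : e t = t₁ := congrArg Prod.fst hx
    have hs : s.map (p t) = s₁ := congrArg Prod.snd hx
    subst ht hs
    obtain ⟨f, rfl⟩ := (p t).surjective f₁
    have hf' : f ∉ s := fun hfs => hf (Sym2.mem_map.2 ⟨f, hfs, rfl⟩)
    have h1 := Tri.Step.glue (T := T) t f s hf'
    rw [h.1, h.2.1, ← map_mul'', inv_mul_cancel_right, map_mul''] at hy
    have h2 : y = (T.adj t f, s.map (T.gl t f)) := (relX_bij e p).1 hy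
    rw [h2]
    exact Relation.EqvGen.rel _ _ h1
  | refl a =>
    rintro x y hx hy
    rw [(relX_bij e p).1 (hx.trans hy.symm)]
    exact Relation.EqvGen.refl _
  | symm a b _ ih =>
    rintro x y hx hy
    exact Relation.EqvGen.symm _ _ (ih y x hy hx)
  | trans a b c _ _ ih1 ih2 =>
    rintro x y hx hy
    obtain ⟨z, hz⟩ := (relX_bij e p).2 b
    exact Relation.EqvGen.trans _ _ _ (ih1 x z hx hz) (ih2 z y hz hy)

open Classical in
theorem edgeSum_rel [Fintype ι] [Fintype ι₁] {T : Tri ι} {T₁ : Tri ι₁} {e : ι ≃ ι₁}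
    {p : ι → Equiv.Perm (Fin 4)} (h : IsRelabel T T₁ e p) (x : ι × Sym2 (Fin 4))
    (α : ι → Fin 3 → ℝ) : T₁.edgeSum (relX e p x) (relE e p α) = T.edgeSum x α := by
  unfold Tri.edgeSum
  symm
  refine Finset.sum_bij (fun y _ => relX e p y) ?_ ?_ ?_ ?_
  · intro y hy
    obtain ⟨h1, h2⟩ := (Finset.mem_filter.1 hy).2
    refine Finset.mem_filter.2 ⟨Finset.mem_univ _, ?_, same_relX h h2⟩
    show ¬ (y.2.map (p y.1)).IsDiag
    rw [isDiag_map_iff]; exact h1
  · intro y _ z _ hyz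
    exact (relX_bij e p).1 hyz
  · intro a ha
    obtain ⟨h1, h2⟩ := (Finset.mem_filter.1 ha).2
    obtain ⟨y, rfl⟩ := (relX_bij e p).2 a
    refine ⟨y, Finset.mem_filter.2 ⟨Finset.mem_univ _, ?_, same_relX' h h2 x y rfl rfl⟩, rfl⟩
    rw [← isDiag_map_iff (p y.1)]; exact h1
  · intro y hy
    obtain ⟨h1, h2⟩ := (Finset.mem_filter.1 hy).2
    show α y.1 (qs y.2) = relE e p α (e y.1) (qs (y.2.map (p y.1)))
    rw [qs_map _ _ h1, ← pqE_apply, relE_apply]

theorem sys_rel [Fintype ι] [Fintype ι₁] {T : Tri ι} {T₁ : Tri ι₁} {e : ι ≃ ι₁}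
    {p : ι → Equiv.Perm (Fin 4)} (h : IsRelabel T T₁ e p) (κ : ℝ) (α : ι → Fin 3 → ℝ) :
    relE e p α ∈ T₁.Sys κ ↔ α ∈ T.Sys κ := by
  have hs : ∀ t, ∑ i, relE e p α (e t) i = ∑ i, α t i := by
    intro t
    rw [← Equiv.sum_comp (pqE (p t))]
    exact Finset.sum_congr rfl fun i _ => relE_apply e p α t i
  constructor
  · rintro ⟨h1, h2⟩
    refine ⟨fun t => by rw [← hs]; exact h1 _, fun x hx => ?_⟩
    rw [← edgeSum_rel h]
    refine h2 _ ?_
    show ¬ (x.2.map (p x.1)).IsDiag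
    rw [isDiag_map_iff]; exact hx
  · rintro ⟨h1, h2⟩
    refine ⟨fun t => ?_, fun a ha => ?_⟩
    · obtain ⟨t, rfl⟩ := e.surjective t
      rw [hs]; exact h1 t
    · obtain ⟨x, rfl⟩ := (relX_bij e p).2 a
      rw [edgeSum_rel h]
      refine h2 _ ?_
      rw [← isDiag_map_iff (p x.1)]; exact ha

theorem ang_rel [Fintype ι] [Fintype ι₁] {T : Tri ι} {T₁ : Tri ι₁} {e : ι ≃ ι₁}
    {p : ι → Equiv.Perm (Fin 4)} (h : IsRelabel T T₁ e p) (α : ι → Fin 3 → ℝ) :
    relE e p α ∈ T₁.Ang ↔ α ∈ T.Ang := by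
  constructor
  · rintro ⟨h1, h2⟩
    exact ⟨(sys_rel h _ _).1 h1, fun t i => by rw [← relE_apply e p α t i]; exact h2 _ _⟩
  · rintro ⟨h1, h2⟩
    refine ⟨(sys_rel h _ _).2 h1, fun t i => ?_⟩
    obtain ⟨t, rfl⟩ := e.surjective t
    obtain ⟨i, rfl⟩ := (pqE (p t)).surjective i
    rw [relE_apply]; exact h2 _ _

end PTH
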