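import Pool.Agent.PAN.Stmts
import Pool.Agent.PTH.MoveD
import Pool.Agent.PTH.RelA

/-! # Path theorem: the state integral with a character of the holonomy -/

open scoped BigOperators
open Pool.Agent.PAN

namespace PTH

variable {J : Type} [Fintype J]

/-- the complex angles `α + i x` -/
noncomputable def cx (α x : J → Fin 3 → ℝ) : J → Fin 3 → ℂ :=
  fun t i => (α t i : ℂ) + (x t i : ℂ) * Complex.I

/-- product of the weights of the tetrahedra -/
noncomputable def GG (N : ℕ) (w : J → Fin 3 → ℂ) : ℂ := ∏ t, WN N (w t)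

/-- the integrand -/
noncomputable def ZI (N : ℕ) (ℓ : (J → Fin 3 → ℝ) →ₗ[ℝ] ℝ) (α x : J → Fin 3 → ℝ) : ℂ :=
  GG N (cx α x) * Complex.exp (((N / Real.pi : ℝ) : ℂ) * ((ℓ α : ℂ) + (ℓ x : ℂ) * Complex.I))

/-- the state integral -/
noncomputable def ZZ (N : ℕ) {d : ℕ} (L : (Fin d → ℝ) →ₗ[ℝ] (J → Fin 3 → ℝ))
    (ℓ : (J → Fin 3 → ℝ) →ₗ[ℝ] ℝ) (α : J → Fin 3 → ℝ) : ℂ :=
  ∫ y : Fin d → ℝ, ZI N ℓ α (L y)

/-- parametrisation of a subspace -/
structure IsPar {d : ℕ} (L : (Fin d → ℝ) →ₗ[ℝ] (J → Fin 3 → ℝ))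
    (V : Submodule ℝ (J → Fin 3 → ℝ)) : Prop where
  inj : Function.Injective L
  range : LinearMap.range L = V

omit [Fintype J] in
theorem IsPar.mem {d : ℕ} {L : (Fin d → ℝ) →ₗ[ℝ] (J → Fin 3 → ℝ)}
    {V : Submodule ℝ (J → Fin 3 → ℝ)} (h : IsPar L V) (y : Fin d → ℝ) : L y ∈ V := by
  rw [← h.range]; exact LinearMap.mem_range_self L y

theorem exists_par (V : Submodule ℝ (J → Fin 3 → ℝ)) :
    ∃ (d : ℕ) (L : (Fin d → ℝ) →ₗ[ℝ] (J → Fin 3 → ℝ)), IsPar L V := by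
  refine ⟨Module.finrank ℝ V, V.subtype ∘ₗ
    ((Module.finBasis ℝ V).equivFun.symm : (Fin (Module.finrank ℝ V) → ℝ) →ₗ[ℝ] V), ?_, ?_⟩
  · exact Subtype.val_injective.comp (Module.finBasis ℝ V).equivFun.symm.injective
  · rw [LinearMap.range_comp, LinearEquiv.range, Submodule.map_subtype_top]

omit [Fintype J] in
/-- **Change of the parametrisation.** -/
theorem par_change {V : Submodule ℝ (J → Fin 3 → ℝ)} {d d' : ℕ}
    {L : (Fin d → ℝ) →ₗ[ℝ] (J → Fin 3 → ℝ)} {L' : (Fin d' → ℝ) →ₗ[ℝ] (J → Fin 3 → ℝ)}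
    (h : IsPar L V) (h' : IsPar L' V) :
    ∃ c : ℝ, 0 < c ∧ ∀ F : (J → Fin 3 → ℝ) → ℂ,
      ∫ y : Fin d' → ℝ, F (L' y) = c * ∫ y : Fin d → ℝ, F (L y) := by
  have e1 : (Fin d → ℝ) ≃ₗ[ℝ] V := (LinearEquiv.ofInjective L h.inj).trans
    (LinearEquiv.ofEq _ _ h.range)
  have e2 : (Fin d' → ℝ) ≃ₗ[ℝ] V := (LinearEquiv.ofInjective L' h'.inj).trans
    (LinearEquiv.ofEq _ _ h'.range)
  have hd : d = d' := by
    have := (e1.trans e2.symm).finrank_eq
    simpa using this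
  subst hd
  let A : (Fin d → ℝ) ≃ₗ[ℝ] (Fin d → ℝ) :=
    ((LinearEquiv.ofInjective L' h'.inj).trans (LinearEquiv.ofEq _ _ (h'.range.trans
      h.range.symm))).trans (LinearEquiv.ofInjective L h.inj).symm
  have hA : ∀ y, L (A y) = L' y := by
    intro y
    have : ∀ z : LinearMap.range L, L ((LinearEquiv.ofInjective L h.inj).symm z) = z := by
      intro z
      have := (LinearEquiv.ofInjective L h.inj).apply_symm_apply z
      exact congrArg Subtype.val this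
    exact this _
  have hdet : LinearMap.det (A : (Fin d → ℝ) →ₗ[ℝ] (Fin d → ℝ)) ≠ 0 := by
    exact (LinearEquiv.isUnit_det' A).ne_zero
  refine ⟨|(LinearMap.det (A : (Fin d → ℝ) →ₗ[ℝ] (Fin d → ℝ)))⁻¹|, by positivity, fun F => ?_⟩
  have h1 := MeasureTheory.Measure.map_linearMap_addHaar_eq_smul_addHaar
    (μ := (MeasureTheory.volume : MeasureTheory.Measure (Fin d → ℝ))) hdet
  have hme : MeasurableEmbedding (A : (Fin d → ℝ) → (Fin d → ℝ)) :=
    (A.toContinuousLinearEquiv.toHomeomorph).measurableEmbedding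
  have h2 : ∫ y : Fin d → ℝ, F (L' y) = ∫ y, F (L y) ∂(MeasureTheory.Measure.map A
      (MeasureTheory.volume : MeasureTheory.Measure (Fin d → ℝ))) := by
    rw [hme.integral_map]
    exact MeasureTheory.integral_congr_ae (Filter.Eventually.of_forall fun y => by
      show F (L' y) = F (L (A y))
      rw [hA])
  have h3 : MeasureTheory.Measure.map A
      (MeasureTheory.volume : MeasureTheory.Measure (Fin d → ℝ)) =
      ENNReal.ofReal |(LinearMap.det (A : (Fin d → ℝ) →ₗ[ℝ] (Fin d → ℝ)))⁻¹| •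
        (MeasureTheory.volume : MeasureTheory.Measure (Fin d → ℝ)) := h1
  rw [h2, h3, MeasureTheory.integral_smul_measure, ENNReal.toReal_ofReal (abs_nonneg _)]
  rw [Complex.real_smul]

theorem ZZ_par {V : Submodule ℝ (J → Fin 3 → ℝ)} {d d' : ℕ}
    {L : (Fin d → ℝ) →ₗ[ℝ] (J → Fin 3 → ℝ)} {L' : (Fin d' → ℝ) →ₗ[ℝ] (J → Fin 3 → ℝ)}
    (h : IsPar L V) (h' : IsPar L' V) :
    ∃ c : ℝ, 0 < c ∧ ∀ (N : ℕ) (ℓ : (J → Fin 3 → ℝ) →ₗ[ℝ] ℝ) (α : J → Fin 3 → ℝ),
      ZZ N L' ℓ α = c * ZZ N L ℓ α := by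
  obtain ⟨c, hc, h1⟩ := par_change h h'
  exact ⟨c, hc, fun N ℓ α => h1 (ZI N ℓ α)⟩

/-- Fubini: the first coordinate is integrated first. -/
theorem integral_cons {d : ℕ} {F : (Fin (d + 1) → ℝ) → ℂ}
    (hF : MeasureTheory.Integrable F) :
    ∫ x : Fin (d + 1) → ℝ, F x = ∫ y : Fin d → ℝ, ∫ s : ℝ, F (Fin.cons s y) := by
  have hmp := MeasureTheory.volume_preserving_piFinSuccAbove (fun _ : Fin (d + 1) => ℝ) 0
  have hmp' := hmp.symm
  rw [← hmp'.integral_comp' (g := F)]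
  have hint : MeasureTheory.Integrable (fun z : ℝ × (Fin d → ℝ) =>
      F ((MeasurableEquiv.piFinSuccAbove (fun _ : Fin (d + 1) => ℝ) 0).symm z)) := by
    exact hmp'.integrable_comp_of_integrable hF
  rw [MeasureTheory.Measure.volume_eq_prod] at hint ⊢
  rw [MeasureTheory.integral_prod_symm _ hint]
  refine MeasureTheory.integral_congr_ae (Filter.Eventually.of_forall fun y =>
    MeasureTheory.integral_congr_ae (Filter.Eventually.of_forall fun s => ?_))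
  show F (Fin.insertNth 0 s y) = F (Fin.cons s y)
  rw [Fin.insertNth_zero']

end PTH
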